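import Pool.Agent.Lib.MP_b07157_ag.LC.Farkas

/-!
# Integral Farkas alternatives
-/

noncomputable section

namespace MPb07157G

open Finset Matrix

variable {n : ℕ}

/-- Clearing denominators. -/
theorem exists_clear {α : Type} (s : Finset α) (q : α → ℚ) :
    ∃ d : ℕ, 0 < d ∧ ∃ z : α → ℤ, ∀ i ∈ s, (d : ℚ) * q i = z i := by
  classical
  induction s using Finset.induction_on with
  | empty => exact ⟨1, one_pos, fun _ => 0, fun i hi => absurd hi (by simp)⟩
  | insert a s ha ih =>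
    obtain ⟨d, hd, z, hz⟩ := ih
    refine ⟨d * (q a).den, Nat.mul_pos hd (q a).den_pos,
      fun i => if i = a then d * (q a).num else (q a).den * z i, fun i hi => ?_⟩
    beta_reduce
    by_cases h : i = a
    · subst h
      rw [if_pos rfl]
      push_cast
      rw [mul_assoc, Rat.den_mul_eq_num]
    · rw [if_neg h]
      have h1 := hz i (Finset.mem_of_mem_insert_of_ne hi h)
      push_cast
      rw [← h1]
      ring

/-- The rational vector of an integral vector. -/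
def qv (v : Fin n → ℤ) : Fin n → ℚ := fun i => (v i : ℚ)

theorem qv_inj {v w : Fin n → ℤ} (h : qv v = qv w) : v = w := by
  funext i
  have := congrFun h i
  simp only [qv] at this
  exact_mod_cast this

/-- Either an integral covector vanishes on `E`, is nonnegative on `D` and positive at `δ₀`, or
there is a relation. -/
theorem farkas_one (D E : Finset (Fin n → ℤ)) (δ₀ : Fin n → ℤ) :
    (∃ σ : Fin n → ℤ, (∀ δ ∈ E, σ ⬝ᵥ δ = 0) ∧ (∀ δ ∈ D, 0 ≤ σ ⬝ᵥ δ) ∧ 0 < σ ⬝ᵥ δ₀) ∨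
      ∃ N : ℕ, 0 < N ∧ ∃ a p q : (Fin n → ℤ) → ℕ,
        N • δ₀ + ∑ δ ∈ D, a δ • δ + ∑ δ ∈ E, p δ • δ = ∑ δ ∈ E, q δ • δ := by
  classical
  rcases MPb07157.LC.farkas_mod (Submodule.span ℚ (qv '' (E : Set (Fin n → ℤ)))) D
    (fun δ => qv δ) (-qv δ₀) with ⟨s, hs, hx⟩ | ⟨u, hu0, hu, hux⟩
  · right
    have h1 : ∃ t : (Fin n → ℤ) → ℚ, -qv δ₀ - ∑ δ ∈ D, s δ • qv δ = ∑ δ ∈ E, t δ • qv δ := by
      have h2 : ∀ y ∈ Submodule.span ℚ (qv '' (E : Set (Fin n → ℤ))),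
          ∃ t : (Fin n → ℤ) → ℚ, y = ∑ δ ∈ E, t δ • qv δ := by
        intro y hy
        induction hy using Submodule.span_induction with
        | mem y hy =>
          obtain ⟨δ, hδ, rfl⟩ := hy
          refine ⟨fun δ' => if δ' = δ then 1 else 0, ?_⟩
          rw [Finset.sum_eq_single δ]
          · simp
          · intro b _ hb
            simp [hb]
          · intro h
            exact absurd hδ h
        | zero => exact ⟨fun _ => 0, by simp⟩
        | add x y _ _ hx hy =>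
          obtain ⟨t, rfl⟩ := hx
          obtain ⟨t', rfl⟩ := hy
          exact ⟨fun δ => t δ + t' δ, by simp [add_smul, Finset.sum_add_distrib]⟩
        | smul c x _ hx =>
          obtain ⟨t, rfl⟩ := hx
          exact ⟨fun δ => c * t δ, by simp [Finset.smul_sum, mul_smul]⟩
      exact h2 _ hx
    obtain ⟨t, ht⟩ := h1
    obtain ⟨d, hd, z, hz⟩ := exists_clear D s
    obtain ⟨d', hd', z', hz'⟩ := exists_clear E t
    refine ⟨d * d', Nat.mul_pos hd hd', fun δ => (d' * z δ).toNat, fun δ => (d * z' δ).toNat,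
      fun δ => (-(d * z' δ)).toNat, ?_⟩
    apply qv_inj
    have hadd : ∀ v w : Fin n → ℤ, qv (v + w) = qv v + qv w := by
      intro v w
      funext i
      simp [qv]
    have hsum : ∀ (S : Finset (Fin n → ℤ)) (m : (Fin n → ℤ) → ℕ),
        qv (∑ δ ∈ S, m δ • δ) = ∑ δ ∈ S, (m δ : ℚ) • qv δ := by
      intro S m
      funext i
      simp [qv, Finset.sum_apply]
    have hN : qv ((d * d') • δ₀) = ((d : ℚ) * d') • qv δ₀ := by
      funext i
      simp [qv]
    rw [hadd, hadd, hsum, hsum, hsum, hN]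
    have hz0 : ∀ δ ∈ D, 0 ≤ z δ := by
      intro δ hδ
      have h3 := hz δ hδ
      have h4 : (0 : ℚ) ≤ (d : ℚ) * s δ := mul_nonneg (Nat.cast_nonneg _) (hs δ hδ)
      rw [h3] at h4
      exact_mod_cast h4
    have h5 : ∑ δ ∈ D, (((d' * z δ).toNat : ℕ) : ℚ) • qv δ =
        ((d : ℚ) * d') • ∑ δ ∈ D, s δ • qv δ := by
      rw [Finset.smul_sum]
      refine Finset.sum_congr rfl fun δ hδ => ?_
      rw [smul_smul]
      congr 1
      have h6 : (((d' * z δ).toNat : ℕ) : ℤ) = d' * z δ :=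
        Int.toNat_of_nonneg (mul_nonneg (Int.natCast_nonneg _) (hz0 δ hδ))
      have h7 : (((d' * z δ).toNat : ℕ) : ℚ) = ((((d' * z δ).toNat : ℕ) : ℤ) : ℚ) := by push_cast; rfl
      rw [h7, h6]
      push_cast
      rw [← hz δ hδ]
      ring
    have h6 : ∑ δ ∈ E, (((-(d * z' δ)).toNat : ℕ) : ℚ) • qv δ -
        ∑ δ ∈ E, (((d * z' δ).toNat : ℕ) : ℚ) • qv δ = -(((d : ℚ) * d') • ∑ δ ∈ E, t δ • qv δ) := by
      rw [← Finset.sum_sub_distrib, Finset.smul_sum, ← Finset.sum_neg_distrib]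
      refine Finset.sum_congr rfl fun δ hδ => ?_
      rw [← sub_smul, smul_smul, ← neg_smul]
      congr 1
      have h7 : (((-(d * z' δ)).toNat : ℕ) : ℤ) - (((d * z' δ).toNat : ℕ) : ℤ) = -(d * z' δ) := by
        omega
      have h8 : (((-(d * z' δ)).toNat : ℕ) : ℚ) - (((d * z' δ).toNat : ℕ) : ℚ) =
          (((((-(d * z' δ)).toNat : ℕ) : ℤ) - (((d * z' δ).toNat : ℕ) : ℤ) : ℤ) : ℚ) := by
        push_cast; rfl
      rw [h8, h7]
      push_cast
      rw [← hz' δ hδ]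
      ring
    rw [h5]
    have h7 : ((d : ℚ) * d') • qv δ₀ + ((d : ℚ) * d') • ∑ δ ∈ D, s δ • qv δ =
        -(((d : ℚ) * d') • ∑ δ ∈ E, t δ • qv δ) := by
      rw [← ht, ← smul_neg, ← smul_add]
      congr 1
      abel
    rw [h7, ← h6]
    abel
  · left
    obtain ⟨d, hd, z, hz⟩ := exists_clear Finset.univ fun i : Fin n => u (Pi.single i 1)
    have hval : ∀ v : Fin n → ℤ, ((z ⬝ᵥ v : ℤ) : ℚ) = d * u (qv v) := by
      intro v
      have h1 : qv v = ∑ i, (v i : ℚ) • (Pi.single i 1 : Fin n → ℚ) := by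
        funext j
        simp [qv, Finset.sum_apply, Pi.single_apply]
      rw [h1, map_sum, Finset.mul_sum]
      unfold dotProduct
      push_cast
      refine Finset.sum_congr rfl fun i _ => ?_
      rw [map_smul, smul_eq_mul, ← hz i (Finset.mem_univ i)]
      ring
    have hd' : (0 : ℚ) < d := by exact_mod_cast hd
    refine ⟨z, fun δ hδ => ?_, fun δ hδ => ?_, ?_⟩
    · have h1 := hval δ
      rw [hu0 _ (Submodule.subset_span ⟨δ, hδ, rfl⟩), mul_zero] at h1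
      exact_mod_cast h1
    · have h1 := hval δ
      have h2 : (0 : ℚ) ≤ d * u (qv δ) := mul_nonneg hd'.le (hu δ hδ)
      rw [← h1] at h2
      exact_mod_cast h2
    · have h1 := hval δ₀
      have h2 : 0 < u (qv δ₀) := by
        rw [map_neg] at hux
        linarith
      have h3 := mul_pos hd' h2
      rw [← h1] at h3
      exact_mod_cast h3

/-- Simultaneous positivity. -/
theorem farkas_all (D E : Finset (Fin n → ℤ))
    (h : ∀ δ₀ ∈ D, ∀ N : ℕ, 0 < N → ∀ a p q : (Fin n → ℤ) → ℕ,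
      N • δ₀ + ∑ δ ∈ D, a δ • δ + ∑ δ ∈ E, p δ • δ ≠ ∑ δ ∈ E, q δ • δ) :
    ∃ σ : Fin n → ℤ, (∀ δ ∈ E, σ ⬝ᵥ δ = 0) ∧ ∀ δ ∈ D, 0 < σ ⬝ᵥ δ := by
  classical
  have h1 : ∀ δ₀ ∈ D, ∃ σ : Fin n → ℤ, (∀ δ ∈ E, σ ⬝ᵥ δ = 0) ∧ (∀ δ ∈ D, 0 ≤ σ ⬝ᵥ δ) ∧
      0 < σ ⬝ᵥ δ₀ := by
    intro δ₀ hδ₀
    rcases farkas_one D E δ₀ with h2 | ⟨N, hN, a, p, q, h2⟩
    · exact h2
    · exact absurd h2 (h δ₀ hδ₀ N hN a p q)
  choose! σ hσ0 hσ hσp using h1
  refine ⟨∑ δ ∈ D, σ δ, fun δ hδ => ?_, fun δ hδ => ?_⟩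
  · rw [sum_dotProduct]
    exact Finset.sum_eq_zero fun δ' hδ' => hσ0 δ' hδ' δ hδ
  · rw [sum_dotProduct]
    exact Finset.sum_pos' (fun δ' hδ' => hσ δ' hδ' δ hδ) ⟨δ, hδ, hσp δ hδ⟩

end MPb07157G
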