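import Pool.Agent.Lib.MP_b07157_agG.Rainbow
import Pool.Agent.Lib.MP_b07157_agG.IntFarkas

/-!
# The face system of a prime ideal
-/

noncomputable section

namespace MPb07157G

open Finset Matrix MPb07157T

variable {k : Type} [Field k] {n : ℕ}

/-- The Laurent polynomials with support in a submonoid. -/
def SR (k : Type) [Field k] {n : ℕ} (M : AddSubmonoid (Fin n → ℤ)) : Subring (LP k n) where
  carrier := {x | SupIn (M : Set (Fin n → ℤ)) x}
  mul_mem' := by
    classical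
    intro a b ha hb v hv
    have h1 := AddMonoidAlgebra.support_coeff_mul_subset a b hv
    obtain ⟨x, hx, y, hy, rfl⟩ := Finset.mem_add.1 h1
    exact M.add_mem (ha x hx) (hb y hy)
  one_mem' := by
    classical
    intro v hv
    have h1 := AddMonoidAlgebra.support_coeff_one_subset (k := k) hv
    have h2 : v = 0 := by simpa using h1
    rw [h2]
    exact M.zero_mem
  add_mem' := by
    classical
    intro a b ha hb v hv
    rw [AddMonoidAlgebra.coeff_add] at hv
    rcases Finset.mem_union.1 (Finsupp.support_add hv) with h | h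
    · exact ha v h
    · exact hb v h
  zero_mem' := by
    intro v hv
    simp at hv
  neg_mem' := by
    intro a ha v hv
    rw [AddMonoidAlgebra.coeff_neg, Finsupp.support_neg] at hv
    exact ha v hv

theorem mem_SR {M : AddSubmonoid (Fin n → ℤ)} {x : LP k n} :
    x ∈ SR k M ↔ SupIn (M : Set (Fin n → ℤ)) x := Iff.rfl

theorem single_mem_SR {M : AddSubmonoid (Fin n → ℤ)} {m : Fin n → ℤ} (hm : m ∈ M) (c : k) :
    (AddMonoidAlgebra.single m c : LP k n) ∈ SR k M := by
  classical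
  intro v hv
  rw [AddMonoidAlgebra.coeff_single] at hv
  have := Finsupp.support_single_subset hv
  rw [Finset.mem_singleton] at this
  rw [this]
  exact hm

/-- Restriction of certificates to a subgroup. -/
theorem restrict_group {ι : Type} [Fintype ι] (L : AddSubgroup (Fin n → ℤ)) (g h : ι → LP k n)
    (hg : ∀ l, SupIn (L : Set (Fin n → ℤ)) (g l)) (hsum : ∑ l, h l * g l = 1) :
    ∃ h' : ι → LP k n, (∀ l, SupIn (L : Set (Fin n → ℤ)) (h' l)) ∧ ∑ l, h' l * g l = 1 := by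
  classical
  refine ⟨fun l => AddMonoidAlgebra.ofCoeff ((h l).coeff.filter fun v => v ∈ L), ?_, ?_⟩
  · intro l v hv
    have h1 : v ∈ ((h l).coeff.filter fun v => v ∈ L).support := hv
    rw [Finsupp.support_filter, Finset.mem_filter] at h1
    exact h1.2
  · ext m
    have h0 := congrArg (fun x => x.coeff m) hsum
    simp only [AddMonoidAlgebra.coeff_sum, Finsupp.finsetSum_apply,
      AddMonoidAlgebra.coeff_mul_apply_left, Finsupp.sum] at h0 ⊢
    by_cases hm : m ∈ L
    · rw [← h0]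
      refine Finset.sum_congr rfl fun l _ => ?_
      rw [Finsupp.support_filter, Finset.sum_filter]
      refine Finset.sum_congr rfl fun v _ => ?_
      by_cases hv : v ∈ L
      · rw [if_pos hv, Finsupp.filter_apply_pos _ _ hv]
      · rw [if_neg hv]
        have h1 : (g l).coeff (-v + m) = 0 := by
          by_contra hne
          have h2 : -v + m ∈ L := hg l _ (Finsupp.mem_support_iff.2 hne)
          apply hv
          have h3 := L.sub_mem hm h2
          have h4 : m - (-v + m) = v := by abel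
          rwa [h4] at h3
        rw [h1, mul_zero]
    · have h2 : (1 : LP k n).coeff m = 0 := by
        rw [AddMonoidAlgebra.one_def, AddMonoidAlgebra.coeff_single, Finsupp.single_apply, if_neg]
        rintro rfl
        exact hm L.zero_mem
      rw [h2]
      refine Finset.sum_eq_zero fun l _ => Finset.sum_eq_zero fun v hv => ?_
      rw [Finsupp.support_filter, Finset.mem_filter] at hv
      have h1 : (g l).coeff (-v + m) = 0 := by
        by_contra hne
        have h3 : -v + m ∈ L := hg l _ (Finsupp.mem_support_iff.2 hne)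
        apply hm
        have h4 := L.add_mem hv.2 h3
        rwa [add_neg_cancel_left] at h4
      rw [h1, mul_zero]

/-- A multiple of the sum moves the group into the monoid. -/
theorem group_shift (E : Finset (Fin n → ℤ)) {s : Fin n → ℤ}
    (hs : s ∈ AddSubgroup.closure (E : Set (Fin n → ℤ))) :
    ∃ N : ℕ, s + N • (∑ δ ∈ E, δ) ∈ AddSubmonoid.closure (E : Set (Fin n → ℤ)) ∧
      -s + N • (∑ δ ∈ E, δ) ∈ AddSubmonoid.closure (E : Set (Fin n → ℤ)) := by
  classical
  have hD : ∀ E' ⊆ E, ∑ δ ∈ E', δ ∈ AddSubmonoid.closure (E : Set (Fin n → ℤ)) := fun E' hE' =>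
    AddSubmonoid.sum_mem _ fun δ hδ => AddSubmonoid.subset_closure (hE' hδ)
  induction hs using AddSubgroup.closure_induction with
  | mem δ hδ =>
    refine ⟨1, ?_, ?_⟩
    · rw [one_smul]
      exact AddSubmonoid.add_mem _ (AddSubmonoid.subset_closure hδ) (hD E subset_rfl)
    · rw [one_smul, ← Finset.add_sum_erase _ _ (Finset.mem_coe.1 hδ), neg_add_cancel_left]
      exact hD _ (Finset.erase_subset _ _)
  | zero =>
    refine ⟨0, ?_, ?_⟩
    · rw [zero_smul, add_zero]; exact AddSubmonoid.zero_mem _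
    · rw [zero_smul, add_zero, neg_zero]; exact AddSubmonoid.zero_mem _
  | add x y _ _ hx hy =>
    obtain ⟨N, h1, h2⟩ := hx
    obtain ⟨N', h3, h4⟩ := hy
    refine ⟨N + N', ?_, ?_⟩
    · have h5 : x + y + (N + N') • (∑ δ ∈ E, δ) = (x + N • ∑ δ ∈ E, δ) + (y + N' • ∑ δ ∈ E, δ) := by
        rw [add_smul]
        abel
      rw [h5]
      exact AddSubmonoid.add_mem _ h1 h3
    · have h5 : -(x + y) + (N + N') • (∑ δ ∈ E, δ) =
          (-x + N • ∑ δ ∈ E, δ) + (-y + N' • ∑ δ ∈ E, δ) := by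
        rw [add_smul]
        abel
      rw [h5]
      exact AddSubmonoid.add_mem _ h2 h4
  | neg x _ hx =>
    obtain ⟨N, h1, h2⟩ := hx
    exact ⟨N, h2, by rwa [neg_neg]⟩

theorem monoid_shift_le (E : Finset (Fin n → ℤ)) {s : Fin n → ℤ} {N : ℕ}
    (hN : s + N • (∑ δ ∈ E, δ) ∈ AddSubmonoid.closure (E : Set (Fin n → ℤ))) {N' : ℕ}
    (h : N ≤ N') : s + N' • (∑ δ ∈ E, δ) ∈ AddSubmonoid.closure (E : Set (Fin n → ℤ)) := by
  obtain ⟨d, rfl⟩ := Nat.exists_eq_add_of_le h
  have h5 : s + (N + d) • (∑ δ ∈ E, δ) = (s + N • ∑ δ ∈ E, δ) + d • ∑ δ ∈ E, δ := by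
    rw [add_smul]
    abel
  rw [h5]
  exact AddSubmonoid.add_mem _ hN (AddSubmonoid.nsmul_mem _
    (AddSubmonoid.sum_mem _ fun δ hδ => AddSubmonoid.subset_closure hδ) _)

variable {ι : Type} [Fintype ι] [DecidableEq ι] {Gs : ι → Finset (Fin n → ℤ)}

theorem supIn_fl {S : Set (Fin n → ℤ)} (G : Finset (Fin n → ℤ)) (c : (Fin n → ℤ) → k)
    (w : Fin n → ℤ) (h : ∀ v ∈ G, v - w ∈ S) :
    SupIn S (AddMonoidAlgebra.single (-w) 1 * Fl G c : LP k n) := by
  classical
  intro v hv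
  unfold Fl at hv
  rw [Finset.mul_sum] at hv
  simp only [AddMonoidAlgebra.single_mul_single, one_mul] at hv
  rw [Finsupp.mem_support_iff, AddMonoidAlgebra.coeff_sum, Finsupp.finsetSum_apply] at hv
  obtain ⟨x, hx, hne⟩ := Finset.exists_ne_zero_of_sum_ne_zero hv
  rw [AddMonoidAlgebra.coeff_single, Finsupp.single_apply] at hne
  split_ifs at hne with h1
  · rw [← h1, neg_add_eq_sub]
    exact h x hx
  · exact absurd rfl hne

/-- From a proper ideal to an integral covector whose face system is proper on the torus. -/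
theorem exists_face (c : (Fin n → ℤ) → k) (u : ι → Fin n → ℤ) (hu : ∀ l, u l ∈ Gs l)
    (hnot : ¬ ∃ h : ι → LP k n, (∀ l, SupIn (Mu Gs u : Set (Fin n → ℤ)) (h l)) ∧
        ∑ l, h l * (AddMonoidAlgebra.single (-u l) 1 * Fl (Gs l) c) = 1) :
    ∃ σ : Fin n → ℤ, (∀ l, ∀ v ∈ Gs l, σ ⬝ᵥ u l ≤ σ ⬝ᵥ v) ∧
      ¬ ∃ h : ι → LP k n,
        ∑ l, h l * Fl ((Gs l).filter fun v => σ ⬝ᵥ v = σ ⬝ᵥ u l) c = 1 := by
  classical
  have hgen : ∀ l, ∀ v ∈ Gs l, v - u l ∈ Mu Gs u := fun l v hv =>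
    AddSubmonoid.subset_closure ⟨l, v, hv, rfl⟩
  have hg : ∀ l, (AddMonoidAlgebra.single (-u l) 1 * Fl (Gs l) c : LP k n) ∈ SR k (Mu Gs u) :=
    fun l => supIn_fl _ _ _ fun v hv => hgen l v hv
  let J : Ideal (SR k (Mu Gs u)) := Ideal.span (Set.range fun l =>
    (⟨AddMonoidAlgebra.single (-u l) 1 * Fl (Gs l) c, hg l⟩ : SR k (Mu Gs u)))
  have hJ : J ≠ ⊤ := by
    intro h
    rw [Ideal.eq_top_iff_one, Ideal.mem_span_range_iff_exists_fun] at h
    obtain ⟨a, ha⟩ := h
    refine hnot ⟨fun l => (a l : LP k n), fun l => (a l).2, ?_⟩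
    have h1 := congrArg (fun x : SR k (Mu Gs u) => (x : LP k n)) ha
    simp only [AddSubmonoidClass.coe_finsetSum, Subring.coe_mul, Subring.coe_one] at h1
    exact h1
  obtain ⟨M, hM, hJM⟩ := Ideal.exists_le_maximal J hJ
  have hMp : M.IsPrime := hM.isPrime
  let mon : ∀ w : Fin n → ℤ, w ∈ Mu Gs u → SR k (Mu Gs u) := fun w hw =>
    ⟨AddMonoidAlgebra.single w 1, single_mem_SR hw 1⟩
  have hmon : ∀ w w' (hw : w ∈ Mu Gs u) (hw' : w' ∈ Mu Gs u),
      mon (w + w') (AddSubmonoid.add_mem _ hw hw') = mon w hw * mon w' hw' := by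
    intro w w' hw hw'
    apply Subtype.ext
    simp only [mon, Subring.coe_mul, AddMonoidAlgebra.single_mul_single, one_mul]
  have hmon0 : mon 0 (AddSubmonoid.zero_mem _) = 1 := by
    apply Subtype.ext
    simp only [mon, Subring.coe_one]
    rfl
  let D : Finset (Fin n → ℤ) := Finset.univ.biUnion fun l => (Gs l).image fun v => v - u l
  have hDM : ∀ δ ∈ D, δ ∈ Mu Gs u := by
    intro δ hδ
    obtain ⟨l, -, hδ⟩ := Finset.mem_biUnion.1 hδ
    obtain ⟨v, hv, rfl⟩ := Finset.mem_image.1 hδ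
    exact hgen l v hv
  let Din : Finset (Fin n → ℤ) := D.filter fun δ => ∀ h : δ ∈ Mu Gs u, mon δ h ∈ M
  let Dout : Finset (Fin n → ℤ) := D.filter fun δ => ¬ ∀ h : δ ∈ Mu Gs u, mon δ h ∈ M
  have hDin : ∀ δ ∈ Din, ∀ h : δ ∈ Mu Gs u, mon δ h ∈ M := fun δ hδ =>
    (Finset.mem_filter.1 hδ).2
  have hDout : ∀ δ ∈ Dout, ∀ h : δ ∈ Mu Gs u, mon δ h ∉ M := by
    intro δ hδ h hmem
    exact (Finset.mem_filter.1 hδ).2 fun _ => hmem
  -- the monoid of `Dout`
  have hout : ∀ w ∈ AddSubmonoid.closure (Dout : Set (Fin n → ℤ)),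
      ∃ h : w ∈ Mu Gs u, mon w h ∉ M := by
    intro w hw
    induction hw using AddSubmonoid.closure_induction with
    | mem w hw =>
      exact ⟨hDM w (Finset.mem_filter.1 hw).1, hDout w hw (hDM w (Finset.mem_filter.1 hw).1)⟩
    | zero =>
      refine ⟨AddSubmonoid.zero_mem _, ?_⟩
      rw [hmon0]
      exact fun h => hMp.ne_top ((Ideal.eq_top_iff_one M).2 h)
    | add x y _ _ hx hy =>
      obtain ⟨h1, h2⟩ := hx
      obtain ⟨h3, h4⟩ := hy
      refine ⟨AddSubmonoid.add_mem _ h1 h3, ?_⟩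
      rw [hmon x y h1 h3]
      intro h
      rcases hMp.mem_or_mem h with h | h
      · exact h2 h
      · exact h4 h
  have hDinM : ∀ w ∈ Mu Gs u, ∀ δ (hδ : δ ∈ Din) (h : δ + w ∈ Mu Gs u), mon (δ + w) h ∈ M := by
    intro w hw δ hδ h
    have h1 := hmon δ w (hDM δ (Finset.mem_filter.1 hδ).1) hw
    have h2 : mon (δ + w) h = mon (δ + w) (AddSubmonoid.add_mem _
      (hDM δ (Finset.mem_filter.1 hδ).1) hw) := rfl
    rw [h2, h1]
    exact Ideal.mul_mem_right _ _ (hDin δ hδ (hDM δ (Finset.mem_filter.1 hδ).1))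
  obtain ⟨σ, hσ0, hσp⟩ := farkas_all Din Dout (by
    intro δ₀ hδ₀ N hN a p q heq
    have h1 : ∑ δ ∈ Dout, q δ • δ ∈ AddSubmonoid.closure (Dout : Set (Fin n → ℤ)) :=
      AddSubmonoid.sum_mem _ fun δ hδ => AddSubmonoid.nsmul_mem _
        (AddSubmonoid.subset_closure hδ) _
    obtain ⟨h2, h3⟩ := hout _ h1
    apply h3
    have h4 : (N - 1) • δ₀ + ∑ δ ∈ Din, a δ • δ + ∑ δ ∈ Dout, p δ • δ ∈ Mu Gs u := by
      refine AddSubmonoid.add_mem _ (AddSubmonoid.add_mem _ ?_ ?_) ?_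
      · exact AddSubmonoid.nsmul_mem _ (hDM _ (Finset.mem_filter.1 hδ₀).1) _
      · exact AddSubmonoid.sum_mem _ fun δ hδ => AddSubmonoid.nsmul_mem _
          (hDM _ (Finset.mem_filter.1 hδ).1) _
      · exact AddSubmonoid.sum_mem _ fun δ hδ => AddSubmonoid.nsmul_mem _
          (hDM _ (Finset.mem_filter.1 hδ).1) _
    have h5 : ∑ δ ∈ Dout, q δ • δ =
        δ₀ + ((N - 1) • δ₀ + ∑ δ ∈ Din, a δ • δ + ∑ δ ∈ Dout, p δ • δ) := by
      rw [← heq]
      obtain ⟨N', rfl⟩ := Nat.exists_eq_add_of_lt hN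
      rw [zero_add, Nat.add_sub_cancel, add_smul, one_smul]
      abel
    have h6 : ∀ (w : Fin n → ℤ) (hw : w ∈ Mu Gs u), w = δ₀ + ((N - 1) • δ₀ +
        ∑ δ ∈ Din, a δ • δ + ∑ δ ∈ Dout, p δ • δ) → mon w hw ∈ M := by
      rintro w hw rfl
      exact hDinM _ h4 δ₀ hδ₀ hw
    exact h6 _ h2 h5)
  -- the faces
  have hface : ∀ l, ∀ v ∈ Gs l, (σ ⬝ᵥ v = σ ⬝ᵥ u l ↔ v - u l ∈ Dout) := by
    intro l v hv
    have hvD : v - u l ∈ D := Finset.mem_biUnion.2 ⟨l, Finset.mem_univ _,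
      Finset.mem_image.2 ⟨v, hv, rfl⟩⟩
    constructor
    · intro h
      refine Finset.mem_filter.2 ⟨hvD, fun h' => ?_⟩
      have h1 := hσp (v - u l) (Finset.mem_filter.2 ⟨hvD, h'⟩)
      rw [dotProduct_sub] at h1
      omega
    · intro h
      have h1 := hσ0 _ h
      rw [dotProduct_sub] at h1
      omega
  refine ⟨σ, fun l v hv => ?_, ?_⟩
  · by_cases h : v - u l ∈ Dout
    · exact ((hface l v hv).2 h).ge
    · have hvD : v - u l ∈ D := Finset.mem_biUnion.2 ⟨l, Finset.mem_univ _,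
        Finset.mem_image.2 ⟨v, hv, rfl⟩⟩
      have h1 : v - u l ∈ Din := by
        refine Finset.mem_filter.2 ⟨hvD, ?_⟩
        by_contra h2
        exact h (Finset.mem_filter.2 ⟨hvD, h2⟩)
      have h2 := hσp _ h1
      rw [dotProduct_sub] at h2
      omega
  · rintro ⟨h, hsum⟩
    set Gf : ι → Finset (Fin n → ℤ) := fun l => (Gs l).filter fun v => σ ⬝ᵥ v = σ ⬝ᵥ u l with hGf
    have hGfout : ∀ l, ∀ v ∈ Gf l, v - u l ∈ Dout := fun l v hv =>
      (hface l v (Finset.mem_filter.1 hv).1).1 (Finset.mem_filter.1 hv).2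
    let L : AddSubgroup (Fin n → ℤ) := AddSubgroup.closure (Dout : Set (Fin n → ℤ))
    obtain ⟨h', hh', hsum'⟩ := restrict_group L
      (fun l => AddMonoidAlgebra.single (-u l) 1 * Fl (Gf l) c)
      (fun l => AddMonoidAlgebra.single (u l) 1 * h l)
      (fun l => supIn_fl _ _ _ fun v hv => AddSubgroup.subset_closure (hGfout l v hv)) (by
        rw [← hsum]
        refine Finset.sum_congr rfl fun l _ => ?_
        have h1 : (AddMonoidAlgebra.single (u l) 1 : LP k n) * AddMonoidAlgebra.single (-u l) 1 = 1 := by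
          rw [AddMonoidAlgebra.single_mul_single, add_neg_cancel, one_mul]
          rfl
        calc _ = (AddMonoidAlgebra.single (u l) 1 * AddMonoidAlgebra.single (-u l) 1) *
              (h l * Fl (Gf l) c) := by ring
          _ = _ := by rw [h1, one_mul])
    have hN : ∃ N : ℕ, ∀ l, ∀ s ∈ (h' l).coeff.support, s + N • (∑ δ ∈ Dout, δ) ∈
        AddSubmonoid.closure (Dout : Set (Fin n → ℤ)) := by
      have h1 : ∀ l, ∀ s ∈ (h' l).coeff.support, ∃ N : ℕ, s + N • (∑ δ ∈ Dout, δ) ∈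
          AddSubmonoid.closure (Dout : Set (Fin n → ℤ)) := by
        intro l s hs
        obtain ⟨N, hN, -⟩ := group_shift Dout (hh' l s hs)
        exact ⟨N, hN⟩
      choose! ν hν using h1
      refine ⟨Finset.univ.sup fun l => (h' l).coeff.support.sup fun s => ν l s,
        fun l s hs => monoid_shift_le _ (hν l s hs) ?_⟩
      exact (Finset.le_sup (f := fun s => ν l s) hs).trans
        (Finset.le_sup (f := fun l => (h' l).coeff.support.sup fun s => ν l s) (Finset.mem_univ l))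
    obtain ⟨N, hN⟩ := hN
    -- `x ^ (N Δ)` lies in `M`
    have hΔ : N • (∑ δ ∈ Dout, δ) ∈ AddSubmonoid.closure (Dout : Set (Fin n → ℤ)) :=
      AddSubmonoid.nsmul_mem _ (AddSubmonoid.sum_mem _ fun δ hδ =>
        AddSubmonoid.subset_closure hδ) _
    obtain ⟨hΔ1, hΔ2⟩ := hout _ hΔ
    apply hΔ2
    have hmem1 : ∀ l, (AddMonoidAlgebra.single (N • (∑ δ ∈ Dout, δ)) 1 * h' l : LP k n) ∈
        SR k (Mu Gs u) := by
      intro l v hv
      have h1 := AddMonoidAlgebra.support_coeff_single_mul_subset (h' l) (1 : k) _ hv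
      obtain ⟨w, hw, rfl⟩ := Finset.mem_image.1 h1
      have h2 := hN l w hw
      rw [add_comm] at h2
      exact (hout _ h2).1
    have hmem2 : ∀ l, (AddMonoidAlgebra.single (-u l) 1 * Fl (Gf l) c : LP k n) ∈
        SR k (Mu Gs u) := fun l => supIn_fl _ _ _ fun v hv =>
          hgen l v (Finset.mem_filter.1 hv).1
    have hgM : ∀ l, (⟨_, hmem2 l⟩ : SR k (Mu Gs u)) ∈ M := by
      intro l
      have h1 : (⟨_, hmem2 l⟩ : SR k (Mu Gs u)) = (⟨_, hg l⟩ : SR k (Mu Gs u)) -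
          ∑ v ∈ ((Gs l).filter fun v => ¬ σ ⬝ᵥ v = σ ⬝ᵥ u l).attach,
            (⟨AddMonoidAlgebra.single 0 (c v.1), single_mem_SR (AddSubmonoid.zero_mem _) _⟩ :
              SR k (Mu Gs u)) * mon (v.1 - u l) (hgen l v.1 (Finset.mem_filter.1 v.2).1) := by
        apply Subtype.ext
        rw [AddSubgroupClass.coe_sub, AddSubmonoidClass.coe_finsetSum]
        simp only [Subring.coe_mul, mon, AddMonoidAlgebra.single_mul_single, zero_add, mul_one]
        rw [Finset.sum_attach ((Gs l).filter fun v => ¬ σ ⬝ᵥ v = σ ⬝ᵥ u l)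
          (fun v => (AddMonoidAlgebra.single (v - u l) (c v) : LP k n))]
        unfold Fl
        rw [Finset.mul_sum, Finset.mul_sum, eq_sub_iff_add_eq]
        simp only [AddMonoidAlgebra.single_mul_single, one_mul, neg_add_eq_sub]
        exact Finset.sum_filter_add_sum_filter_not _ _ _
      rw [h1]
      refine Ideal.sub_mem _ (hJM (Ideal.subset_span ⟨l, rfl⟩)) ?_
      refine Ideal.sum_mem _ fun v _ => Ideal.mul_mem_left _ _ ?_
      refine hDin _ (Finset.mem_filter.2 ⟨Finset.mem_biUnion.2 ⟨l, Finset.mem_univ _,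
        Finset.mem_image.2 ⟨v.1, (Finset.mem_filter.1 v.2).1, rfl⟩⟩, ?_⟩)
        (hgen l v.1 (Finset.mem_filter.1 v.2).1)
      by_contra h2
      refine (Finset.mem_filter.1 v.2).2 ((hface l v.1 (Finset.mem_filter.1 v.2).1).2 ?_)
      exact Finset.mem_filter.2 ⟨Finset.mem_biUnion.2 ⟨l, Finset.mem_univ _,
        Finset.mem_image.2 ⟨v.1, (Finset.mem_filter.1 v.2).1, rfl⟩⟩, h2⟩
    have h1 : mon _ hΔ1 = ∑ l, (⟨_, hmem1 l⟩ : SR k (Mu Gs u)) * ⟨_, hmem2 l⟩ := by
      apply Subtype.ext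
      rw [AddSubmonoidClass.coe_finsetSum]
      simp only [Subring.coe_mul, mon]
      simp only [mul_assoc (AddMonoidAlgebra.single (N • ∑ δ ∈ Dout, δ) 1 : LP k n)]
      rw [← Finset.mul_sum, hsum', mul_one]
    rw [h1]
    exact Ideal.sum_mem _ fun l _ => Ideal.mul_mem_left _ _ (hgM l)

end MPb07157G
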