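import Mathlib

/-!
# Successive approximation in a power series ring, multiplicative form
-/

noncomputable section

namespace MPb07157G

open Finset PowerSeries

variable {κ : Type} [Field κ] {n : ℕ}

/-- `y = 1 + d X ^ K` modulo `X ^ (K + 1)`. -/
def Ex (K : ℕ) (d : κ) (y : PowerSeries κ) : Prop :=
  (X : PowerSeries κ) ^ (K + 1) ∣ y - 1 - C d * X ^ K

theorem Ex.sub_one {K : ℕ} {d : κ} {y : PowerSeries κ} (h : Ex K d y) :
    (X : PowerSeries κ) ^ K ∣ y - 1 := by
  have h1 : (X : PowerSeries κ) ^ K ∣ y - 1 - C d * X ^ K := (pow_dvd_pow X (Nat.le_succ K)).trans h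
  have h2 : (X : PowerSeries κ) ^ K ∣ C d * X ^ K := Dvd.intro_left _ rfl
  have h3 := dvd_add h1 h2
  rwa [sub_add_cancel] at h3

theorem pow_dvd_sq {K : ℕ} (hK : 1 ≤ K) {a b : PowerSeries κ} (ha : (X : PowerSeries κ) ^ K ∣ a)
    (hb : (X : PowerSeries κ) ^ K ∣ b) : (X : PowerSeries κ) ^ (K + 1) ∣ a * b := by
  have h1 : (X : PowerSeries κ) ^ (K + 1) ∣ X ^ K * X ^ K := by
    rw [← pow_add]
    exact pow_dvd_pow X (by omega)
  exact h1.trans (mul_dvd_mul ha hb)

theorem Ex.mul {K : ℕ} (hK : 1 ≤ K) {d d' : κ} {y y' : PowerSeries κ} (h : Ex K d y)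
    (h' : Ex K d' y') : Ex K (d + d') (y * y') := by
  have h1 : y * y' - 1 - C (d + d') * X ^ K = (y - 1 - C d * X ^ K) * y' +
      (y' - 1 - C d' * X ^ K) + (C d * X ^ K) * (y' - 1) := by
    rw [map_add]
    ring
  unfold Ex
  rw [h1]
  refine dvd_add (dvd_add (h.mul_right _) h') (pow_dvd_sq hK ?_ h'.sub_one)
  exact Dvd.intro_left _ rfl

theorem Ex.one (K : ℕ) : Ex K (0 : κ) 1 := by
  unfold Ex
  rw [map_zero, zero_mul, sub_self, sub_zero]
  exact dvd_zero _

theorem Ex.inv {K : ℕ} (hK : 1 ≤ K) {d : κ} {y : (PowerSeries κ)ˣ} (h : Ex K d (y : PowerSeries κ)) :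
    Ex K (-d) ((y⁻¹ : (PowerSeries κ)ˣ) : PowerSeries κ) := by
  have hy : (y : PowerSeries κ) * ((y⁻¹ : (PowerSeries κ)ˣ) : PowerSeries κ) = 1 := by
    rw [← Units.val_mul, mul_inv_cancel, Units.val_one]
  set z : PowerSeries κ := ((y⁻¹ : (PowerSeries κ)ˣ) : PowerSeries κ) with hz
  have h1 : z - 1 - C (-d) * X ^ K = -(z * ((y : PowerSeries κ) - 1 - C d * X ^ K)) +
      (C d * X ^ K) * (z * ((y : PowerSeries κ) - 1)) := by
    rw [map_neg]
    linear_combination (1 - C d * X ^ K) * hy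
  unfold Ex
  rw [h1]
  refine dvd_add ((dvd_neg.2 (h.mul_left _))) (pow_dvd_sq hK (Dvd.intro_left _ rfl) ?_)
  exact h.sub_one.mul_left _

theorem Ex.zpow {K : ℕ} (hK : 1 ≤ K) {d : κ} {y : (PowerSeries κ)ˣ} (h : Ex K d (y : PowerSeries κ))
    (m : ℤ) : Ex K ((m : κ) * d) ((y ^ m : (PowerSeries κ)ˣ) : PowerSeries κ) := by
  induction m using Int.induction_on with
  | zero =>
    rw [zpow_zero, Int.cast_zero, zero_mul, Units.val_one]
    exact Ex.one K
  | succ m ih =>
    rw [zpow_add_one, Units.val_mul]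
    have h1 := Ex.mul hK ih h
    push_cast at h1 ⊢
    convert h1 using 1
    ring
  | pred m ih =>
    rw [zpow_sub_one, Units.val_mul]
    have h1 := Ex.mul hK ih (Ex.inv hK h)
    push_cast at h1 ⊢
    convert h1 using 1
    ring

theorem Ex.prod {K : ℕ} (hK : 1 ≤ K) {ι : Type} (s : Finset ι) {d : ι → κ}
    {y : ι → (PowerSeries κ)ˣ} (h : ∀ i ∈ s, Ex K (d i) (y i : PowerSeries κ)) :
    Ex K (∑ i ∈ s, d i) ((∏ i ∈ s, y i : (PowerSeries κ)ˣ) : PowerSeries κ) := by
  classical
  induction s using Finset.induction_on with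
  | empty =>
    rw [Finset.sum_empty, Finset.prod_empty, Units.val_one]
    exact Ex.one K
  | insert i s his ih =>
    rw [Finset.sum_insert his, Finset.prod_insert his, Units.val_mul]
    exact Ex.mul hK (h i (Finset.mem_insert_self _ _))
      (ih fun j hj => h j (Finset.mem_insert_of_mem hj))

/-- A multiplicative family with prescribed first order behaviour. -/
theorem exists_character {K : ℕ} (hK : 1 ≤ K) (δ : Fin n → κ) :
    ∃ ε : (Fin n → ℤ) → PowerSeries κ, ε 0 = 1 ∧ (∀ m m', ε (m + m') = ε m * ε m') ∧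
      ∀ m, Ex K (∑ i, (m i : κ) * δ i) (ε m) := by
  classical
  have hunit : ∀ i, IsUnit (1 + C (δ i) * X ^ K : PowerSeries κ) := by
    intro i
    rw [PowerSeries.isUnit_iff_constantCoeff]
    have h1 : constantCoeff (1 + C (δ i) * X ^ K : PowerSeries κ) = 1 := by
      rw [map_add, map_mul, map_pow, PowerSeries.constantCoeff_X, zero_pow (by omega), mul_zero,
        add_zero, map_one]
    rw [h1]
    exact isUnit_one
  choose y hy using hunit
  refine ⟨fun m => ((∏ i, y i ^ m i : (PowerSeries κ)ˣ) : PowerSeries κ), ?_, ?_, ?_⟩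
  · simp
  · intro m m'
    rw [← Units.val_mul, ← Finset.prod_mul_distrib]
    simp only [Pi.add_apply, zpow_add]
  · intro m
    refine Ex.prod hK _ fun i _ => Ex.zpow hK ?_ (m i)
    rw [hy i]
    unfold Ex
    have h1 : (1 + C (δ i) * X ^ K : PowerSeries κ) - 1 - C (δ i) * X ^ K = 0 := by ring
    rw [h1]
    exact dvd_zero _

/-- Approximate solutions of every order. -/
theorem exists_approx {ι : Type} (Gs : ι → Finset (Fin n → ℤ)) (c : (Fin n → ℤ) → κ)
    (ex : (Fin n → ℤ) → ι → ℕ) (pm : (Fin n → ℤ) → κ) (pm0 : pm 0 = 1)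
    (pmadd : ∀ m m', pm (m + m') = pm m * pm m')
    (hzero : ∀ l, ∑ v ∈ (Gs l).filter (fun v => ex v l = 0), c v * pm v = 0)
    (hsurj : ∀ b : ι → κ, ∃ δ : Fin n → κ, ∀ l,
      ∑ v ∈ (Gs l).filter (fun v => ex v l = 0), c v * pm v * ∑ i, (v i : κ) * δ i = b l) :
    ∀ K : ℕ, 1 ≤ K → ∃ χ : (Fin n → ℤ) → PowerSeries κ, χ 0 = 1 ∧
      (∀ m m', χ (m + m') = χ m * χ m') ∧ (∀ m, constantCoeff (χ m) = pm m) ∧
      ∀ l, (X : PowerSeries κ) ^ K ∣ ∑ v ∈ Gs l, C (c v) * X ^ (ex v l) * χ v := by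
  classical
  intro K hK
  induction K, hK using Nat.le_induction with
  | base =>
    refine ⟨fun m => C (pm m), by beta_reduce; rw [pm0, map_one],
      fun m m' => by beta_reduce; rw [pmadd, map_mul],
      fun m => PowerSeries.constantCoeff_C _, fun l => ?_⟩
    rw [pow_one, PowerSeries.X_dvd_iff, map_sum, ← hzero l, Finset.sum_filter]
    refine Finset.sum_congr rfl fun v _ => ?_
    rw [map_mul, map_mul, map_pow, PowerSeries.constantCoeff_X, PowerSeries.constantCoeff_C,
      PowerSeries.constantCoeff_C]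
    by_cases h : ex v l = 0
    · rw [if_pos h, h, pow_zero, mul_one]
    · rw [if_neg h, zero_pow h, mul_zero, zero_mul]
  | succ K hK ih =>
    obtain ⟨χ, hχ0, hχ, hχc, hχd⟩ := ih
    obtain ⟨δ, hδ⟩ := hsurj fun l => -(coeff K (∑ v ∈ Gs l, C (c v) * X ^ (ex v l) * χ v))
    obtain ⟨ε, hε0, hε, hεx⟩ := exists_character hK δ
    refine ⟨fun m => χ m * ε m, by beta_reduce; rw [hχ0, hε0, one_mul], ?_, ?_, ?_⟩
    · intro m m'
      beta_reduce
      rw [hχ, hε]
      ring
    · intro m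
      rw [map_mul, hχc]
      have h1 : constantCoeff (ε m) = 1 := by
        obtain ⟨q, hq⟩ := (hεx m).sub_one
        have h2 : ε m = 1 + X ^ K * q := by rw [← hq]; ring
        rw [h2, map_add, map_mul, map_pow, PowerSeries.constantCoeff_X, zero_pow (by omega),
          zero_mul, add_zero, map_one]
      rw [h1, mul_one]
    · intro l
      set d : (Fin n → ℤ) → κ := fun m => ∑ i, (m i : κ) * δ i with hd
      have h1 : ∑ v ∈ Gs l, C (c v) * X ^ (ex v l) * (χ v * ε v) =
          (∑ v ∈ Gs l, C (c v) * X ^ (ex v l) * χ v) +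
          X ^ K * (∑ v ∈ Gs l, C (c v) * X ^ (ex v l) * χ v * C (d v)) +
          ∑ v ∈ Gs l, C (c v) * X ^ (ex v l) * χ v * (ε v - 1 - C (d v) * X ^ K) := by
        rw [Finset.mul_sum, ← Finset.sum_add_distrib, ← Finset.sum_add_distrib]
        refine Finset.sum_congr rfl fun v _ => ?_
        ring
      rw [h1]
      refine dvd_add ?_ (Finset.dvd_sum fun v _ => (hεx v).mul_left _)
      rw [PowerSeries.X_pow_dvd_iff]
      intro m hm
      rw [map_add]
      rcases Nat.lt_succ_iff_lt_or_eq.1 hm with hm | rfl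
      · rw [PowerSeries.X_pow_dvd_iff.1 (hχd l) m hm,
          PowerSeries.X_pow_dvd_iff.1 (Dvd.intro _ rfl) m hm, add_zero]
      · have h2 : coeff m (X ^ m * ∑ v ∈ Gs l, C (c v) * X ^ (ex v l) * χ v * C (d v)) =
            ∑ v ∈ (Gs l).filter (fun v => ex v l = 0), c v * pm v * d v := by
          have h3 := PowerSeries.coeff_X_pow_mul
            (∑ v ∈ Gs l, C (c v) * X ^ (ex v l) * χ v * C (d v)) m 0
          rw [zero_add] at h3
          rw [h3, PowerSeries.coeff_zero_eq_constantCoeff_apply, map_sum, Finset.sum_filter]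
          refine Finset.sum_congr rfl fun v _ => ?_
          rw [map_mul, map_mul, map_mul, map_pow, PowerSeries.constantCoeff_X,
            PowerSeries.constantCoeff_C, PowerSeries.constantCoeff_C, hχc]
          by_cases h : ex v l = 0
          · rw [if_pos h, h, pow_zero, mul_one]
          · rw [if_neg h, zero_pow h, mul_zero, zero_mul, zero_mul]
        rw [h2, hδ l]
        ring

end MPb07157G
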