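import Pool.Agent.Lib.MP_b07157_agG.Rado
import Pool.Agent.Lib.MP_b07157_agG.Face
import Pool.Agent.Lib.MP_b07157_agG.Newton

/-!
# Nondegenerate systems without deficits do not generate the unit ideal
-/

noncomputable section

namespace MPb07157G

open Finset Matrix MPb07157T

variable {k : Type} [Field k] {n : ℕ} {ι : Type} [Fintype ι] [DecidableEq ι]

/-- The part of the system on the face of `σ` in the directions `L`. -/
def FL (Gs : ι → Finset (Fin n → ℤ)) (c : (Fin n → ℤ) → k) (u : ι → Fin n → ℤ)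
    (σ : Fin n → ℤ) (L : Finset ι) : (Fin n → ℤ) →₀ k :=
  ∑ l ∈ L, ∑ v ∈ (Gs l).filter (fun v => σ ⬝ᵥ v = σ ⬝ᵥ u l), Finsupp.single v (c v)

theorem thF_FL (Gs : ι → Finset (Fin n → ℤ)) (c : (Fin n → ℤ) → k) (u : ι → Fin n → ℤ)
    (σ : Fin n → ℤ) (L : Finset ι) (i : Fin n) :
    thF (FL Gs c u σ L) i = ∑ l ∈ L, ∑ v ∈ (Gs l).filter (fun v => σ ⬝ᵥ v = σ ⬝ᵥ u l),
      AddMonoidAlgebra.single v (((v i : ℤ) : k) * c v) := by
  classical
  ext m
  rw [coeff_thF]
  unfold FL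
  simp only [AddMonoidAlgebra.coeff_sum, Finsupp.finsetSum_apply, Finset.mul_sum]
  refine Finset.sum_congr rfl fun l _ => Finset.sum_congr rfl fun v _ => ?_
  rw [AddMonoidAlgebra.coeff_single, Finsupp.single_apply, Finsupp.single_apply]
  by_cases h : v = m
  · rw [if_pos h, if_pos h, h]
  · rw [if_neg h, if_neg h, mul_zero]

section Point

variable {κ : Type} [Field κ] (ρ : LP k n →+* κ)

/-- The value of a monomial. -/
def pmn (m : Fin n → ℤ) : κ := ρ (AddMonoidAlgebra.single m 1)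

/-- The value of a coefficient. -/
def cfn (a : k) : κ := ρ (AddMonoidAlgebra.single 0 a)

theorem pmn_zero : pmn ρ 0 = 1 := by
  unfold pmn
  have h : (AddMonoidAlgebra.single (0 : Fin n → ℤ) (1 : k) : LP k n) = 1 := rfl
  rw [h, map_one]

theorem pmn_add (m m' : Fin n → ℤ) : pmn ρ (m + m') = pmn ρ m * pmn ρ m' := by
  unfold pmn
  rw [← map_mul, AddMonoidAlgebra.single_mul_single, one_mul]

theorem pmn_ne_zero (m : Fin n → ℤ) : pmn ρ m ≠ 0 := by
  intro h
  have h1 := pmn_add ρ m (-m)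
  rw [add_neg_cancel, pmn_zero, h, zero_mul] at h1
  exact one_ne_zero h1

theorem rho_single (m : Fin n → ℤ) (a : k) :
    ρ (AddMonoidAlgebra.single m a) = cfn ρ a * pmn ρ m := by
  unfold cfn pmn
  rw [← map_mul, AddMonoidAlgebra.single_mul_single, zero_add, mul_one]

/-- The coefficients as a ring homomorphism. -/
def cfh : k →+* κ where
  toFun := cfn ρ
  map_one' := pmn_zero ρ
  map_mul' a b := by
    unfold cfn
    rw [← map_mul, AddMonoidAlgebra.single_mul_single, zero_add]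
  map_zero' := by
    unfold cfn
    rw [AddMonoidAlgebra.single_zero, map_zero]
  map_add' a b := by
    unfold cfn
    rw [← map_add, AddMonoidAlgebra.single_add]

theorem cfh_apply (a : k) : cfh ρ a = cfn ρ a := rfl

/-- Rescaling the point in the directions `L`. -/
def scaleHom (e : ι → Fin n) (L : Finset ι) (μ : ι → κ) (hμ : ∀ l ∈ L, μ l ≠ 0) :
    LP k n →+* κ :=
  AddMonoidAlgebra.liftNCRingHom (cfh ρ)
    { toFun := fun m => pmn ρ m.toAdd * ∏ l ∈ L, μ l ^ (m.toAdd (e l))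
      map_one' := by
        rw [toAdd_one, pmn_zero]
        simp
      map_mul' := fun a b => by
        rw [toAdd_mul, pmn_add]
        have h1 : ∏ l ∈ L, μ l ^ ((a.toAdd + b.toAdd) (e l)) =
            (∏ l ∈ L, μ l ^ (a.toAdd (e l))) * ∏ l ∈ L, μ l ^ (b.toAdd (e l)) := by
          rw [← Finset.prod_mul_distrib]
          refine Finset.prod_congr rfl fun l hl => ?_
          rw [Pi.add_apply, zpow_add₀ (hμ l hl)]
        rw [h1]
        ring }
    (fun x y => Commute.all _ _)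

theorem scaleHom_single (e : ι → Fin n) (L : Finset ι) (μ : ι → κ) (hμ : ∀ l ∈ L, μ l ≠ 0)
    (m : Fin n → ℤ) (a : k) : scaleHom ρ e L μ hμ (AddMonoidAlgebra.single m a) =
      cfn ρ a * (pmn ρ m * ∏ l ∈ L, μ l ^ (m (e l))) :=
  AddMonoidAlgebra.liftNCRingHom_single _ _ _ _ _

/-- The Jacobian matrix of the face system at the point. -/
def jac (Gs : ι → Finset (Fin n → ℤ)) (c : (Fin n → ℤ) → k) (u : ι → Fin n → ℤ)
    (σ : Fin n → ℤ) : Matrix ι (Fin n) κ :=
  fun l i => ∑ v ∈ (Gs l).filter (fun v => σ ⬝ᵥ v = σ ⬝ᵥ u l),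
    cfn ρ (c v) * pmn ρ v * ((v i : ℤ) : κ)

theorem jac_independent {Gs : ι → Finset (Fin n → ℤ)} {e : ι → Fin n}
    (hdeg : ∀ l l', ∀ v ∈ Gs l, v (e l') = if l = l' then 1 else 0)
    (c : (Fin n → ℤ) → k) (u : ι → Fin n → ℤ) (σ : Fin n → ℤ)
    (hnd : ∀ L : Finset ι, L.Nonempty → Cert Set.univ (FL Gs c u σ L) 1) :
    LinearIndependent κ (jac ρ Gs c u σ) := by
  classical
  rw [Fintype.linearIndependent_iff]
  intro μ hμ
  by_contra hcon
  push Not at hcon
  obtain ⟨l₀, hl₀⟩ := hcon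
  set L : Finset ι := Finset.univ.filter fun l => μ l ≠ 0 with hL
  have hμL : ∀ l ∈ L, μ l ≠ 0 := fun l hl => (Finset.mem_filter.1 hl).2
  obtain ⟨a, -, ha⟩ := hnd L ⟨l₀, Finset.mem_filter.2 ⟨Finset.mem_univ _, hl₀⟩⟩
  have h1 := congrArg (scaleHom ρ e L μ hμL) ha
  rw [map_sum, map_one] at h1
  have h2 : ∀ i, scaleHom ρ e L μ hμL (thF (FL Gs c u σ L) i) = 0 := by
    intro i
    rw [thF_FL, map_sum]
    have h3 : ∀ l ∈ L, scaleHom ρ e L μ hμL (∑ v ∈ (Gs l).filter (fun v => σ ⬝ᵥ v = σ ⬝ᵥ u l),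
        AddMonoidAlgebra.single v (((v i : ℤ) : k) * c v)) = μ l * jac ρ Gs c u σ l i := by
      intro l hl
      rw [map_sum]
      unfold jac
      rw [Finset.mul_sum]
      refine Finset.sum_congr rfl fun v hv => ?_
      rw [scaleHom_single]
      have h4 : ∏ l' ∈ L, μ l' ^ (v (e l')) = μ l := by
        rw [Finset.prod_eq_single l]
        · rw [hdeg l l v (Finset.mem_filter.1 hv).1, if_pos rfl, zpow_one]
        · intro l' _ hne
          rw [hdeg l l' v (Finset.mem_filter.1 hv).1, if_neg (Ne.symm hne), zpow_zero]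
        · intro h
          exact absurd hl h
      have h5 : cfn ρ (((v i : ℤ) : k) * c v) = ((v i : ℤ) : κ) * cfn ρ (c v) := by
        rw [← cfh_apply, map_mul, map_intCast, cfh_apply]
      rw [h4, h5]
      ring
    rw [Finset.sum_congr rfl h3]
    have h6 := congrFun hμ i
    rw [Finset.sum_apply] at h6
    simp only [Pi.smul_apply, smul_eq_mul, Pi.zero_apply] at h6
    rw [← h6]
    refine Finset.sum_subset (Finset.subset_univ _) fun l _ hl => ?_
    have h7 : μ l = 0 := by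
      by_contra h
      exact hl (Finset.mem_filter.2 ⟨Finset.mem_univ _, h⟩)
    rw [h7, zero_mul]
  rw [Finset.sum_eq_zero fun i _ => by rw [map_mul, h2 i, mul_zero]] at h1
  exact zero_ne_one h1

theorem jac_surjective {Gs : ι → Finset (Fin n → ℤ)} {c : (Fin n → ℤ) → k}
    {u : ι → Fin n → ℤ} {σ : Fin n → ℤ} (h : LinearIndependent κ (jac ρ Gs c u σ)) (b : ι → κ) :
    ∃ δ : Fin n → κ, (jac ρ Gs c u σ).mulVec δ = b := by
  have h1 : (jac ρ Gs c u σ).rank = Fintype.card ι := LinearIndependent.rank_matrix h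
  have h2 : LinearMap.range (jac ρ Gs c u σ).mulVecLin = ⊤ := by
    apply Submodule.eq_top_of_finrank_eq
    rw [Module.finrank_fintype_fun_eq_card]
    exact h1
  have h3 : b ∈ LinearMap.range (jac ρ Gs c u σ).mulVecLin := by rw [h2]; trivial
  exact h3

open PowerSeries in
/-- No unit relation if the face system has a point. -/
theorem no_unit_of_point {Gs : ι → Finset (Fin n → ℤ)} {e : ι → Fin n}
    (hdeg : ∀ l l', ∀ v ∈ Gs l, v (e l') = if l = l' then 1 else 0)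
    (c : (Fin n → ℤ) → k) (u : ι → Fin n → ℤ) (hu : ∀ l, u l ∈ Gs l) (σ : Fin n → ℤ)
    (hσ : ∀ l, ∀ v ∈ Gs l, σ ⬝ᵥ u l ≤ σ ⬝ᵥ v)
    (hzero : ∀ l, ρ (Fl ((Gs l).filter fun v => σ ⬝ᵥ v = σ ⬝ᵥ u l) c) = 0)
    (hnd : ∀ L : Finset ι, L.Nonempty → Cert Set.univ (FL Gs c u σ L) 1)
    (h : ι → LP k n) : ∑ l, h l * Fl (Gs l) c ≠ 1 := by
  classical
  intro hsum
  -- the bound `B`
  obtain ⟨B, hB⟩ : ∃ B : ℕ, ∀ l, ∀ m ∈ (h l).coeff.support, 0 ≤ σ ⬝ᵥ m + σ ⬝ᵥ u l + B := by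
    refine ⟨Finset.univ.sup fun l => (h l).coeff.support.sup fun m =>
      (σ ⬝ᵥ m + σ ⬝ᵥ u l).natAbs, fun l m hm => ?_⟩
    have h1 : (σ ⬝ᵥ m + σ ⬝ᵥ u l).natAbs ≤ Finset.univ.sup fun l => (h l).coeff.support.sup fun m =>
        (σ ⬝ᵥ m + σ ⬝ᵥ u l).natAbs :=
      (Finset.le_sup (f := fun m => (σ ⬝ᵥ m + σ ⬝ᵥ u l).natAbs) hm).trans
        (Finset.le_sup (f := fun l => (h l).coeff.support.sup fun m =>
          (σ ⬝ᵥ m + σ ⬝ᵥ u l).natAbs) (Finset.mem_univ l))
    omega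
  have hex : ∀ l, ∀ v ∈ Gs l, ((σ ⬝ᵥ v - σ ⬝ᵥ u l).toNat = 0 ↔ σ ⬝ᵥ v = σ ⬝ᵥ u l) := by
    intro l v hv
    have := hσ l v hv
    omega
  have hfil : ∀ l, (Gs l).filter (fun v => (σ ⬝ᵥ v - σ ⬝ᵥ u l).toNat = 0) =
      (Gs l).filter (fun v => σ ⬝ᵥ v = σ ⬝ᵥ u l) := fun l =>
    Finset.filter_congr fun v hv => hex l v hv
  obtain ⟨χ, hχ0, hχ, -, hχd⟩ := exists_approx Gs (fun v => cfn ρ (c v))
    (fun v l => (σ ⬝ᵥ v - σ ⬝ᵥ u l).toNat) (pmn ρ) (pmn_zero ρ) (pmn_add ρ)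
    (by
      intro l
      rw [hfil l, ← hzero l]
      unfold Fl
      rw [map_sum]
      exact Finset.sum_congr rfl fun v _ => (rho_single ρ v (c v)).symm)
    (by
      intro b
      obtain ⟨δ, hδ⟩ := jac_surjective ρ (jac_independent ρ hdeg c u σ hnd) b
      refine ⟨δ, fun l => ?_⟩
      rw [hfil l, ← hδ]
      unfold jac Matrix.mulVec dotProduct
      simp only [Finset.sum_mul, Finset.mul_sum]
      rw [Finset.sum_comm]
      refine Finset.sum_congr rfl fun i _ => Finset.sum_congr rfl fun v _ => ?_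
      ring) (B + 1) (Nat.succ_le_succ (Nat.zero_le _))
  -- the additive map
  let Θ : LP k n →+ PowerSeries κ :=
    (Finsupp.liftAddHom fun m : Fin n → ℤ => (AddMonoidHom.mulRight
      (X ^ ((σ ⬝ᵥ m + B).toNat) * χ m : PowerSeries κ)).comp
        ((PowerSeries.C : κ →+* PowerSeries κ).comp (cfh ρ)).toAddMonoidHom).comp
      (AddMonoidAlgebra.coeffAddEquiv : LP k n ≃+ ((Fin n → ℤ) →₀ k)).toAddMonoidHom
  have hΘ : ∀ m a, Θ (AddMonoidAlgebra.single m a) =
      C (cfn ρ a) * (X ^ ((σ ⬝ᵥ m + B).toNat) * χ m) := by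
    intro m a
    change (Finsupp.liftAddHom fun m : Fin n → ℤ => (AddMonoidHom.mulRight
      (X ^ ((σ ⬝ᵥ m + B).toNat) * χ m : PowerSeries κ)).comp
        ((PowerSeries.C : κ →+* PowerSeries κ).comp (cfh ρ)).toAddMonoidHom)
          (Finsupp.single m a) = _
    rw [Finsupp.liftAddHom_apply_single]
    rfl
  have h1 := congrArg Θ hsum
  have h2 : Θ 1 = X ^ B := by
    have h3 : (1 : LP k n) = AddMonoidAlgebra.single 0 1 := rfl
    rw [h3, hΘ, hχ0, dotProduct_zero, zero_add, Int.toNat_natCast, mul_one]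
    have h4 : cfn ρ (1 : k) = 1 := by rw [← cfh_apply, map_one]
    rw [h4, map_one, one_mul]
  rw [h2, map_sum] at h1
  have h3 : (X : PowerSeries κ) ^ (B + 1) ∣ X ^ B := by
    rw [← h1]
    refine Finset.dvd_sum fun l _ => ?_
    have h4 : h l * Fl (Gs l) c = ∑ m ∈ (h l).coeff.support, ∑ v ∈ Gs l,
        AddMonoidAlgebra.single (m + v) ((h l).coeff m * c v) := by
      conv_lhs => rw [← AddMonoidAlgebra.sum_coeff_single (h l)]
      rw [Finsupp.sum, Finset.sum_mul]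
      refine Finset.sum_congr rfl fun m _ => ?_
      unfold Fl
      rw [Finset.mul_sum]
      exact Finset.sum_congr rfl fun v _ => AddMonoidAlgebra.single_mul_single ..
    rw [h4, map_sum]
    refine Finset.dvd_sum fun m hm => ?_
    rw [map_sum]
    have h5 : ∑ v ∈ Gs l, Θ (AddMonoidAlgebra.single (m + v) ((h l).coeff m * c v)) =
        (C (cfn ρ ((h l).coeff m)) * X ^ ((σ ⬝ᵥ m + σ ⬝ᵥ u l + B).toNat) * χ m) *
        ∑ v ∈ Gs l, C (cfn ρ (c v)) * X ^ ((σ ⬝ᵥ v - σ ⬝ᵥ u l).toNat) * χ v := by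
      rw [Finset.mul_sum]
      refine Finset.sum_congr rfl fun v hv => ?_
      rw [hΘ, hχ]
      have h6 : (σ ⬝ᵥ (m + v) + B).toNat = (σ ⬝ᵥ m + σ ⬝ᵥ u l + B).toNat +
          (σ ⬝ᵥ v - σ ⬝ᵥ u l).toNat := by
        rw [dotProduct_add]
        have h7 := hB l m hm
        have h8 := hσ l v hv
        omega
      have h7 : cfn ρ ((h l).coeff m * c v) = cfn ρ ((h l).coeff m) * cfn ρ (c v) := by
        rw [← cfh_apply, map_mul, cfh_apply, cfh_apply]
      rw [h6, h7, pow_add, map_mul]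
      ring
    rw [h5]
    exact (hχd l).mul_left _
  have h4 := PowerSeries.X_pow_dvd_iff.1 h3 B (Nat.lt_succ_self B)
  rw [PowerSeries.coeff_X_pow_self] at h4
  exact one_ne_zero h4

end Point

end MPb07157G
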