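import Pool.Agent.Lib.MP_b07157_agG.Main
import Pool.Agent.Lib.MP_b07157_ag.NewtMain

/-!
# No unit relation on a compact face of a nondegenerate polynomial
-/

noncomputable section

namespace MPb07157G

open Finset Matrix Module MPb07157T MPb07157

variable {n : ℕ}

/-- Certificates on the faces of a compact face. -/
theorem cert_face_of_nondeg {f : MvPolynomial (Fin n) ℂ} (k : Fin n → ℕ)
    (hN : 0 < nuf f k) (hk : ∀ i, 0 < k i)
    (hnd : ∀ a : Fin n → ℕ, (∀ i, 0 < a i) → NondegAt f (face f a (nuf f a)))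
    (c : Fin n → ℤ) (I : Finset (Fin n →₀ ℕ)) (hI : I ⊆ face f k (nuf f k)) (hne : I.Nonempty)
    (h5 : ∀ v ∈ I, ∀ v' ∈ face f k (nuf f k), c ⬝ᵥ castv v ≤ c ⬝ᵥ castv v')
    (h6 : ∀ v' ∈ face f k (nuf f k), (∀ v ∈ I, c ⬝ᵥ castv v = c ⬝ᵥ castv v') → v' ∈ I) :
    Cert Set.univ (toF f I) 1 := by
  classical
  obtain ⟨v₀, hv₀⟩ := hne
  have hv₀G := hI hv₀
  have hv₀f : v₀ ∈ f.support := (Finset.mem_filter.1 hv₀G).1
  have hf : f ≠ 0 := by
    rintro rfl
    simp at hv₀f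
  -- the bound
  obtain ⟨M, hM1, hM2⟩ : ∃ M : ℕ, (∀ v ∈ f.support, ∀ v' ∈ f.support,
      c ⬝ᵥ castv v - c ⬝ᵥ castv v' < M) ∧ ∀ i, -(M : ℤ) < c i := by
    refine ⟨2 * (f.support.sup fun v => (c ⬝ᵥ castv v).natAbs) +
      (Finset.univ.sup fun i => (c i).natAbs) + 1, fun v hv v' hv' => ?_, fun i => ?_⟩
    · have h1 : (c ⬝ᵥ castv v).natAbs ≤ f.support.sup fun v => (c ⬝ᵥ castv v).natAbs :=
        Finset.le_sup (f := fun v => (c ⬝ᵥ castv v).natAbs) hv
      have h2 : (c ⬝ᵥ castv v').natAbs ≤ f.support.sup fun v => (c ⬝ᵥ castv v).natAbs :=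
        Finset.le_sup (f := fun v => (c ⬝ᵥ castv v).natAbs) hv'
      push_cast
      omega
    · have h1 : (c i).natAbs ≤ Finset.univ.sup fun i => (c i).natAbs :=
        Finset.le_sup (f := fun i => (c i).natAbs) (Finset.mem_univ i)
      push_cast
      omega
  let a : Fin n → ℕ := fun i => (M * k i + c i).toNat
  have ha0 : ∀ i, 0 < (M * k i + c i : ℤ) := by
    intro i
    have h1 := hM2 i
    have h2 : (1 : ℤ) ≤ k i := by exact_mod_cast hk i
    have h3 : (0 : ℤ) ≤ M := Int.natCast_nonneg _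
    nlinarith
  have ha : ∀ i, ((a i : ℕ) : ℤ) = M * k i + c i := fun i => Int.toNat_of_nonneg (ha0 i).le
  have hapos : ∀ i, 0 < a i := by
    intro i
    have := ha0 i
    have := ha i
    omega
  have hwt : ∀ v : Fin n →₀ ℕ, ((wt a v : ℕ) : ℤ) = M * (wt k v : ℕ) + c ⬝ᵥ castv v := by
    intro v
    unfold wt dotProduct castv
    push_cast
    rw [Finset.mul_sum, ← Finset.sum_add_distrib]
    refine Finset.sum_congr rfl fun i _ => ?_
    rw [ha i]
    ring
  have hmin : ∀ v ∈ f.support, wt k v₀ ≤ wt k v := by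
    intro v hv
    have h1 := (isMinWt_nuf hf k).1 v hv
    rw [(Finset.mem_filter.1 hv₀G).2]
    exact h1
  have hmemG : ∀ v ∈ f.support, wt k v = wt k v₀ → v ∈ face f k (nuf f k) := by
    intro v hv h
    exact Finset.mem_filter.2 ⟨hv, by rw [h, (Finset.mem_filter.1 hv₀G).2]⟩
  -- strict inequality outside the face
  have hstrict : ∀ v ∈ f.support, wt k v ≠ wt k v₀ → wt a v₀ < wt a v := by
    intro v hv hne
    have h1 := hmin v hv
    have h2 : wt k v₀ + 1 ≤ wt k v := by omega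
    have h3 := hM1 v₀ hv₀f v hv
    have h4 := hwt v₀
    have h7 := hwt v
    have h8 : (M : ℤ) * ((wt k v₀ : ℕ) : ℤ) + M ≤ M * ((wt k v : ℕ) : ℤ) := by
      have h9 : ((wt k v₀ : ℕ) : ℤ) + 1 ≤ ((wt k v : ℕ) : ℤ) := by exact_mod_cast h2
      have h10 : (0 : ℤ) ≤ M := Int.natCast_nonneg _
      nlinarith
    have h9 : ((wt a v₀ : ℕ) : ℤ) < ((wt a v : ℕ) : ℤ) := by
      rw [h4, h7]
      linarith
    exact_mod_cast h9
  have hmw : IsMinWt f a (wt a v₀) := by
    refine ⟨fun v hv => ?_, v₀, hv₀f, rfl⟩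
    by_cases h : wt k v = wt k v₀
    · have h1 := h5 v₀ hv₀ v (hmemG v hv h)
      have h2 := hwt v₀
      have h3 := hwt v
      rw [h] at h3
      have h9 : ((wt a v₀ : ℕ) : ℤ) ≤ ((wt a v : ℕ) : ℤ) := by
        rw [h2, h3]
        linarith
      exact_mod_cast h9
    · exact (hstrict v hv h).le
  have hnuf : nuf f a = wt a v₀ := (isMinWt_nuf hf a).eq hmw
  have hface : face f a (nuf f a) = I := by
    ext v
    rw [hnuf]
    constructor
    · intro hv
      obtain ⟨hvf, hva⟩ := Finset.mem_filter.1 hv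
      have h : wt k v = wt k v₀ := by
        by_contra hne
        have := hstrict v hvf hne
        omega
      refine h6 v (hmemG v hvf h) fun v₁ hv₁ => ?_
      have h1 := h5 v₁ hv₁ v (hmemG v hvf h)
      have h2 := h5 v₁ hv₁ v₀ hv₀G
      have h3 := h5 v₀ hv₀ v₁ (hI hv₁)
      have h4 := hwt v₀
      have h7 := hwt v
      rw [h, hva, h4] at h7
      linarith
    · intro hv
      have hvG := hI hv
      refine Finset.mem_filter.2 ⟨(Finset.mem_filter.1 hvG).1, ?_⟩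
      have h1 := h5 v hv v₀ hv₀G
      have h2 := h5 v₀ hv₀ v hvG
      have h3 := hwt v₀
      have h4 := hwt v
      rw [(Finset.mem_filter.1 hvG).2] at h4
      rw [(Finset.mem_filter.1 hv₀G).2] at h3
      have h9 : ((wt a v : ℕ) : ℤ) = ((wt a v₀ : ℕ) : ℤ) := by
        rw [h3, h4]
        linarith
      exact_mod_cast h9
  have hU := unitOn_of_nondegAt f I (by rw [← hface]; exact hnd a hapos) (fun i => (k i : ℤ))
    (nuf f k : ℤ) (by exact_mod_cast hN.ne') (by
      intro v hv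
      have h1 := (Finset.mem_filter.1 (hI hv)).2
      rw [← h1]
      unfold wt dotProduct castv
      push_cast
      rfl) [] (by simp)
  rw [unitOn_iff] at hU
  exact hU.mono (Set.subset_univ _)

/-- **No unit relation** on a compact face of a nondegenerate polynomial. -/
theorem no_unit_face {f : MvPolynomial (Fin n) ℂ} (k : Fin n → ℕ)
    (hN : 0 < nuf f k) (hk : ∀ i, 0 < k i)
    (hnd : ∀ a : Fin n → ℕ, (∀ i, 0 < a i) → NondegAt f (face f a (nuf f a)))
    (J1 : Finset (Fin n)) (h1 : ∀ v ∈ face f k (nuf f k), ∀ l ∈ J1, v l ≤ 1)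
    (h2 : ∀ v ∈ face f k (nuf f k), ∀ l ∈ J1, ∀ l' ∈ J1, v l = 1 → v l' = 1 → l = l')
    (h3 : ∀ J ⊆ J1, 2 * J.card ≤ finrank ℚ (Submodule.span ℚ
      {y : Fin n → ℚ | ∃ v ∈ face f k (nuf f k), (∃ j ∈ J, v j ≠ 0) ∧ y = fun i => (v i : ℚ)}))
    (u : Fin n → LP ℂ n) : ∑ l ∈ J1, u l * thF (toF f (face f k (nuf f k))) l ≠ 1 :=
  no_unit f (face f k (nuf f k)) (Finset.filter_subset _ _) J1 h1 h2 h3
    (fun c I hI hne h5 h6 => cert_face_of_nondeg k hN hk hnd c I hI hne h5 h6) u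

end MPb07157G
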