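import Pool.Agent.Lib.MP_b07157_agT.Fin

/-!
# Leading monomials and algebraic independence; Nakayama
-/

noncomputable section

namespace MPb07157G

open Finset Matrix MPb07157T

variable {k : Type} [Field k] {n : ℕ}

/-- `x` has leading exponent at most `a` (lexicographic order) and coefficient `c` at `a`. -/
def Lead (a : Fin n → ℤ) (c : k) (x : LP k n) : Prop :=
  (∀ v ∈ x.coeff.support, toLex v ≤ toLex a) ∧ x.coeff a = c

theorem Lead.mul {a b : Fin n → ℤ} {c d : k} {x y : LP k n} (hx : Lead a c x) (hy : Lead b d y) :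
    Lead (a + b) (c * d) (x * y) := by
  classical
  constructor
  · intro v hv
    obtain ⟨p, hp, q, hq, rfl⟩ := Finset.mem_add.1
      (AddMonoidAlgebra.support_coeff_mul_subset x y hv)
    rw [toLex_add, toLex_add]
    exact add_le_add (hx.1 p hp) (hy.1 q hq)
  · rw [AddMonoidAlgebra.coeff_mul_apply_left, Finsupp.sum]
    rw [Finset.sum_eq_single a]
    · rw [neg_add_cancel_left, hx.2, hy.2]
    · intro v hv hva
      have h1 := hx.1 v hv
      have h2 : toLex v < toLex a := lt_of_le_of_ne h1 (fun h => hva (toLex.injective h))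
      have h3 : y.coeff (-v + (a + b)) = 0 := by
        by_contra hne
        have h4 := hy.1 _ (Finsupp.mem_support_iff.2 hne)
        have h5 : toLex (-v + (a + b)) = - toLex v + (toLex a + toLex b) := by
          rw [toLex_add, toLex_neg, toLex_add]
        rw [h5] at h4
        have h6 : toLex a + toLex b ≤ toLex v + toLex b := by
          have := add_le_add_right h4 (toLex v)
          rwa [add_neg_cancel_left] at this
        have h7 := add_lt_add_left h2 (toLex b)
        exact absurd h6 (not_le.2 h7)
      rw [h3, mul_zero]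
    · intro ha
      rw [Finsupp.notMem_support_iff] at ha
      rw [ha, zero_mul]

theorem Lead.one : Lead (0 : Fin n → ℤ) (1 : k) (1 : LP k n) := by
  classical
  constructor
  · intro v hv
    have h1 := AddMonoidAlgebra.support_coeff_one_subset (k := k) hv
    have h2 : v = 0 := by simpa using h1
    rw [h2]
  · rw [AddMonoidAlgebra.one_def, AddMonoidAlgebra.coeff_single, Finsupp.single_eq_same]

theorem Lead.pow {a : Fin n → ℤ} {c : k} {x : LP k n} (hx : Lead a c x) (N : ℕ) :
    Lead (N • a) (c ^ N) (x ^ N) := by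
  induction N with
  | zero =>
    rw [zero_smul, pow_zero, pow_zero]
    exact Lead.one
  | succ N ih =>
    rw [succ_nsmul, pow_succ, pow_succ]
    exact ih.mul hx

theorem Lead.prod {ι : Type} (s : Finset ι) {a : ι → Fin n → ℤ} {c : ι → k} {x : ι → LP k n}
    (hx : ∀ i ∈ s, Lead (a i) (c i) (x i)) :
    Lead (∑ i ∈ s, a i) (∏ i ∈ s, c i) (∏ i ∈ s, x i) := by
  classical
  induction s using Finset.induction_on with
  | empty =>
    rw [Finset.sum_empty, Finset.prod_empty, Finset.prod_empty]
    exact Lead.one
  | insert i s his ih =>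
    rw [Finset.sum_insert his, Finset.prod_insert his, Finset.prod_insert his]
    exact (hx i (Finset.mem_insert_self _ _)).mul
      (ih fun j hj => hx j (Finset.mem_insert_of_mem hj))

/-- Laurent polynomials with independent leading exponents are algebraically independent. -/
theorem aeval_ne_zero {ι : Type} [Fintype ι] {β : ι → Fin n → ℤ}
    (hβ : LinearIndependent ℚ fun i => vec ℚ (β i)) {c : ι → k} (hc : ∀ i, c i ≠ 0)
    {t : ι → LP k n} (ht : ∀ i, Lead (β i) (c i) (t i)) (P : MvPolynomial ι k) (hP : P ≠ 0) :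
    MvPolynomial.aeval t P ≠ 0 := by
  classical
  let e : (ι →₀ ℕ) → Fin n → ℤ := fun α => ∑ i, α i • β i
  have he : Function.Injective e := by
    intro α α' h
    have h1 : ∑ i, ((α i : ℚ) - α' i) • vec ℚ (β i) = 0 := by
      have h2 : vec ℚ (e α) = vec ℚ (e α') := by rw [h]
      have h3 : ∀ α : ι →₀ ℕ, vec ℚ (e α) = ∑ i, (α i : ℚ) • vec ℚ (β i) := by
        intro α
        funext j
        simp [MPb07157T.vec, e, Finset.sum_apply]
      rw [h3, h3] at h2
      simp only [sub_smul, Finset.sum_sub_distrib]
      rw [h2, sub_self]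
    have h2 := Fintype.linearIndependent_iff.1 hβ _ h1
    ext i
    have h3 := h2 i
    have h4 : (α i : ℚ) = α' i := by linarith
    exact_mod_cast h4
  have hmon : ∀ α : ι →₀ ℕ, Lead (e α) (∏ i, c i ^ α i) (∏ i, t i ^ α i) := fun α =>
    Lead.prod _ fun i _ => (ht i).pow (α i)
  obtain ⟨α, hα, hmax⟩ := Finset.exists_max_image P.support (fun α => toLex (e α))
    (MvPolynomial.support_nonempty.2 hP)
  intro h0
  have h1 : (MvPolynomial.aeval t P).coeff (e α) = 0 := by rw [h0]; rfl
  have h2 : MvPolynomial.aeval t P = ∑ α ∈ P.support, P.coeff α • ∏ i, t i ^ α i := by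
    rw [MvPolynomial.aeval_def, MvPolynomial.eval₂_eq']
    refine Finset.sum_congr rfl fun α _ => ?_
    rw [Algebra.smul_def]
  rw [h2, AddMonoidAlgebra.coeff_sum, Finsupp.finsetSum_apply, Finset.sum_eq_single α] at h1
  · rw [AddMonoidAlgebra.coeff_smul, Finsupp.smul_apply, (hmon α).2, smul_eq_mul] at h1
    refine mul_ne_zero (MvPolynomial.mem_support_iff.1 hα) ?_ h1
    exact Finset.prod_ne_zero_iff.2 fun i _ => pow_ne_zero _ (hc i)
  · intro α' hα' hne
    rw [AddMonoidAlgebra.coeff_smul, Finsupp.smul_apply]
    have h3 : (∏ i, t i ^ α' i).coeff (e α) = 0 := by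
      by_contra hcon
      have h4 := (hmon α').1 _ (Finsupp.mem_support_iff.2 hcon)
      have h5 := hmax α' hα'
      exact hne (he (toLex.injective (le_antisymm h5 h4)))
    rw [h3, smul_zero]
  · intro h
    exact absurd hα h

/-- Nakayama: if every monomial of the finite set `B` is in the `k`-span of the elements
`t l * x ^ m`, `m ∈ B`, then some polynomial with constant coefficient `1` vanishes at `t`. -/
theorem exists_poly {ι : Type} (t : ι → LP k n) (B : Finset (Fin n → ℤ)) (hB : B.Nonempty)
    (h : ∀ b ∈ B, (AddMonoidAlgebra.single b 1 : LP k n) ∈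
      Submodule.span k {y | ∃ l, ∃ m ∈ B, y = t l * AddMonoidAlgebra.single m 1}) :
    ∃ P : MvPolynomial ι k, P ≠ 0 ∧ MvPolynomial.aeval t P = 0 := by
  classical
  let _ : Module (MvPolynomial ι k) (LP k n) :=
    Module.compHom (LP k n) (MvPolynomial.aeval t : MvPolynomial ι k →ₐ[k] LP k n).toRingHom
  have hsmul : ∀ (p : MvPolynomial ι k) (x : LP k n), p • x = MvPolynomial.aeval t p * x :=
    fun p x => rfl
  let I : Ideal (MvPolynomial ι k) := Ideal.span (Set.range MvPolynomial.X)
  let N : Submodule (MvPolynomial ι k) (LP k n) :=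
    Submodule.span _ ((fun b => (AddMonoidAlgebra.single b 1 : LP k n)) '' (B : Set (Fin n → ℤ)))
  have hfg : N.FG := Submodule.fg_span (B.finite_toSet.image _)
  have hle : N ≤ I • N := by
    refine Submodule.span_le.2 ?_
    rintro _ ⟨b, hb, rfl⟩
    have hall : ∀ y ∈ Submodule.span k {y : LP k n | ∃ l, ∃ m ∈ B,
        y = t l * AddMonoidAlgebra.single m 1}, y ∈ I • N := by
      intro y hy
      induction hy using Submodule.span_induction with
      | mem y hy =>
        obtain ⟨l, m, hm, rfl⟩ := hy
        have h2 : t l * AddMonoidAlgebra.single m 1 =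
            (MvPolynomial.X l : MvPolynomial ι k) • (AddMonoidAlgebra.single m 1 : LP k n) := by
          rw [hsmul, MvPolynomial.aeval_X]
        rw [h2]
        exact Submodule.smul_mem_smul (Ideal.subset_span ⟨l, rfl⟩)
          (Submodule.subset_span ⟨m, hm, rfl⟩)
      | zero => exact Submodule.zero_mem _
      | add x y _ _ hx hy => exact Submodule.add_mem _ hx hy
      | smul c x _ hx =>
        have h2 : c • x = (MvPolynomial.C c : MvPolynomial ι k) • x := by
          rw [hsmul, MvPolynomial.aeval_C, Algebra.smul_def]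
        rw [h2]
        exact Submodule.smul_mem _ _ hx
    exact hall _ (h b hb)
  obtain ⟨P, hP1, hP2⟩ := Submodule.exists_sub_one_mem_and_smul_eq_zero_of_fg_of_le_smul I N hfg hle
  refine ⟨P, ?_, ?_⟩
  · rintro rfl
    have h1 : ∀ q ∈ I, MvPolynomial.constantCoeff q = 0 := by
      intro q hq
      have h2 : I ≤ RingHom.ker (MvPolynomial.constantCoeff : MvPolynomial ι k →+* k) := by
        refine Ideal.span_le.2 ?_
        rintro _ ⟨i, rfl⟩
        exact MvPolynomial.constantCoeff_X k i
      exact h2 hq
    have h2 := h1 _ hP1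
    rw [zero_sub, map_neg, map_one] at h2
    exact one_ne_zero (neg_eq_zero.1 h2)
  · obtain ⟨b, hb⟩ := hB
    have h1 := hP2 _ (Submodule.subset_span ⟨b, hb, rfl⟩)
    rw [hsmul] at h1
    have h2 : (AddMonoidAlgebra.single b 1 : LP k n) * AddMonoidAlgebra.single (-b) 1 = 1 := by
      rw [AddMonoidAlgebra.single_mul_single, add_neg_cancel, one_mul]
      rfl
    calc MvPolynomial.aeval t P = MvPolynomial.aeval t P * (AddMonoidAlgebra.single b 1 *
          AddMonoidAlgebra.single (-b) 1) := by rw [h2, mul_one]
      _ = 0 := by rw [← mul_assoc, h1, zero_mul]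

end MPb07157G
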