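import Pool.Agent.Lib.MP_b07157_agG.Abs
import Pool.Agent.Lib.MP_b07157_agT.Nd

/-!
# No unit relation among the logarithmic derivatives in directions without deficit
-/

noncomputable section

namespace MPb07157G

open Finset Matrix Module MPb07157T

variable {k : Type} [Field k] {n : ℕ} {ι : Type} [Fintype ι] [DecidableEq ι]

theorem qv_sub (v w : Fin n → ℤ) : qv (v - w) = qv v - qv w := by
  funext i
  simp [qv]

theorem exists_lex_max (G : Finset (Fin n → ℤ)) (hG : G.Nonempty) :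
    ∃ w ∈ G, ∀ v ∈ G, toLex v ≤ toLex w := by
  obtain ⟨w, hw, h⟩ := Finset.exists_max_image G (fun v => toLex v) hG
  exact ⟨w, hw, h⟩

/-- **The abstract theorem.** -/
theorem no_unit_abs {Gs : ι → Finset (Fin n → ℤ)} {e : ι → Fin n}
    (hdeg : ∀ l l', ∀ v ∈ Gs l, v (e l') = if l = l' then 1 else 0)
    (c : (Fin n → ℤ) → k) (hc : ∀ l, ∀ v ∈ Gs l, c v ≠ 0)
    (hrank : ∀ J : Finset ι, 2 * J.card ≤
      finrank ℚ (Submodule.span ℚ (qv '' (↑(J.biUnion Gs) : Set (Fin n → ℤ)))))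
    (hnd : ∀ (σ : Fin n → ℤ) (u : ι → Fin n → ℤ), (∀ l, u l ∈ Gs l) →
      (∀ l, ∀ v ∈ Gs l, σ ⬝ᵥ u l ≤ σ ⬝ᵥ v) → ∀ L : Finset ι, L.Nonempty →
        Cert Set.univ (FL Gs c u σ L) 1)
    (h : ι → LP k n) : ∑ l, h l * Fl (Gs l) c ≠ 1 := by
  classical
  have hne : ∀ l, (Gs l).Nonempty := by
    intro l
    by_contra hcon
    rw [Finset.not_nonempty_iff_eq_empty] at hcon
    have h1 := hrank {l}
    rw [Finset.singleton_biUnion, hcon, Finset.coe_empty, Set.image_empty, Submodule.span_empty,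
      finrank_bot, Finset.card_singleton] at h1
    omega
  choose w hw hwmax using fun l => exists_lex_max (Gs l) (hne l)
  -- Rado
  let A : ι → Finset (Fin n → ℚ) := fun l => (Gs l).image fun v => qv (w l - v)
  obtain ⟨a, ha, hli⟩ := rado _ A le_rfl (by
    intro J
    have h1 : Submodule.span ℚ (qv '' (↑(J.biUnion Gs) : Set (Fin n → ℤ))) ≤
        Submodule.span ℚ (↑(J.image fun l => qv (w l)) : Set (Fin n → ℚ)) ⊔
          Submodule.span ℚ (↑(J.biUnion A) : Set (Fin n → ℚ)) := by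
      refine Submodule.span_le.2 ?_
      rintro _ ⟨v, hv, rfl⟩
      rw [Finset.mem_coe, Finset.mem_biUnion] at hv
      obtain ⟨l, hl, hv⟩ := hv
      have h2 : qv v = qv (w l) - qv (w l - v) := by
        rw [qv_sub]
        abel
      rw [h2]
      refine Submodule.sub_mem _ (Submodule.mem_sup_left (Submodule.subset_span ?_))
        (Submodule.mem_sup_right (Submodule.subset_span ?_))
      · exact Finset.mem_coe.2 (Finset.mem_image.2 ⟨l, hl, rfl⟩)
      · exact Finset.mem_coe.2 (Finset.mem_biUnion.2 ⟨l, hl, Finset.mem_image.2 ⟨v, hv, rfl⟩⟩)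
    have h2 := Submodule.finrank_mono h1
    have h3 := Submodule.finrank_add_le_finrank_add_finrank
      (Submodule.span ℚ (↑(J.image fun l => qv (w l)) : Set (Fin n → ℚ)))
      (Submodule.span ℚ (↑(J.biUnion A) : Set (Fin n → ℚ)))
    have h4 : finrank ℚ (Submodule.span ℚ (↑(J.image fun l => qv (w l)) : Set (Fin n → ℚ))) ≤
        J.card := (finrank_span_finset_le_card _).trans Finset.card_image_le
    have h5 := hrank J
    omega)
  have hv₀ : ∀ l, ∃ v ∈ Gs l, qv (w l - v) = a l := fun l => Finset.mem_image.1 (ha l)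
  choose v₀ hv₀ hav using hv₀
  obtain ⟨u, hu, hnot⟩ := exists_rainbow hdeg c v₀ hv₀ (by
    intro P hP
    refine aeval_ne_zero (β := fun l => w l - v₀ l) (c := fun l => c (w l)) ?_
      (fun l => hc l _ (hw l)) (fun l => ⟨?_, ?_⟩) P hP
    · have h1 : (fun l => MPb07157T.vec ℚ (w l - v₀ l)) = a := by
        funext l
        exact hav l
      rw [h1]
      exact hli
    · intro m hm
      have h1 := supIn_fl (k := k) (S := {m | toLex m ≤ toLex (w l - v₀ l)}) (Gs l) c (v₀ l) (by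
        intro v hv
        change toLex (v - v₀ l) ≤ toLex (w l - v₀ l)
        rw [toLex_sub, toLex_sub]
        exact sub_le_sub_right (hwmax l v hv) _)
      exact h1 m hm
    · unfold Fl
      rw [Finset.mul_sum, AddMonoidAlgebra.coeff_sum, Finsupp.finsetSum_apply,
        Finset.sum_eq_single (w l)]
      · rw [AddMonoidAlgebra.single_mul_single, one_mul, neg_add_eq_sub,
          AddMonoidAlgebra.coeff_single, Finsupp.single_eq_same]
      · intro v _ hne'
        rw [AddMonoidAlgebra.single_mul_single, one_mul, neg_add_eq_sub,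
          AddMonoidAlgebra.coeff_single, Finsupp.single_apply, if_neg]
        intro h1
        exact hne' (sub_left_injective h1)
      · intro h1
        exact absurd (hw l) h1)
  obtain ⟨σ, hσ, hface⟩ := exists_face c u hu hnot
  -- a point of the face system
  let I : Ideal (LP k n) := Ideal.span (Set.range fun l =>
    Fl ((Gs l).filter fun v => σ ⬝ᵥ v = σ ⬝ᵥ u l) c)
  have hI : I ≠ ⊤ := by
    intro h1
    rw [Ideal.eq_top_iff_one, Ideal.mem_span_range_iff_exists_fun] at h1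
    exact hface h1
  obtain ⟨M, hM, hIM⟩ := Ideal.exists_le_maximal I hI
  let _ : Field (LP k n ⧸ M) := Ideal.Quotient.field M
  refine no_unit_of_point (Ideal.Quotient.mk M) hdeg c u hu σ hσ (fun l => ?_)
    (hnd σ u hu hσ) h
  exact Ideal.Quotient.eq_zero_iff_mem.2 (hIM (Ideal.subset_span ⟨l, rfl⟩))

/-- **No unit relation** (part G). -/
theorem no_unit (f : MvPolynomial (Fin n) ℂ) (G : Finset (Fin n →₀ ℕ)) (hG : G ⊆ f.support)
    (J1 : Finset (Fin n)) (h1 : ∀ v ∈ G, ∀ l ∈ J1, v l ≤ 1)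
    (h2 : ∀ v ∈ G, ∀ l ∈ J1, ∀ l' ∈ J1, v l = 1 → v l' = 1 → l = l')
    (h3 : ∀ J ⊆ J1, 2 * J.card ≤ finrank ℚ (Submodule.span ℚ
      {y : Fin n → ℚ | ∃ v ∈ G, (∃ j ∈ J, v j ≠ 0) ∧ y = fun i => (v i : ℚ)}))
    (h4 : ∀ (c : Fin n → ℤ), ∀ I ⊆ G, I.Nonempty →
      (∀ v ∈ I, ∀ v' ∈ G, c ⬝ᵥ castv v ≤ c ⬝ᵥ castv v') →
      (∀ v' ∈ G, (∀ v ∈ I, c ⬝ᵥ castv v = c ⬝ᵥ castv v') → v' ∈ I) → Cert Set.univ (toF f I) 1)
    (u : Fin n → LP ℂ n) : ∑ l ∈ J1, u l * thF (toF f G) l ≠ 1 := by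
  classical
  let Gs : {l // l ∈ J1} → Finset (Fin n → ℤ) := fun l =>
    (G.filter fun v => v l.1 = 1).image castv
  let e : {l // l ∈ J1} → Fin n := fun l => l.1
  let c : (Fin n → ℤ) → ℂ := fun m => toF f G m
  have hcG : ∀ v ∈ G, c (castv v) = MvPolynomial.coeff v f := fun v hv => by
    simp only [c]
    rw [toF_castv, if_pos hv]
  have hdeg : ∀ l l', ∀ v ∈ Gs l, v (e l') = if l = l' then 1 else 0 := by
    intro l l' m hm
    obtain ⟨v, hv, rfl⟩ := Finset.mem_image.1 hm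
    obtain ⟨hvG, hvl⟩ := Finset.mem_filter.1 hv
    simp only [castv, e]
    by_cases h : l = l'
    · rw [if_pos h, ← h, hvl]
      rfl
    · rw [if_neg h]
      have h5 := h1 v hvG l'.1 l'.2
      have h6 : v l'.1 ≠ 1 := fun h6 => h (Subtype.ext (h2 v hvG l.1 l.2 l'.1 l'.2 hvl h6))
      have h7 : v l'.1 = 0 := by omega
      rw [h7]
      rfl
  have hmain := no_unit_abs (Gs := Gs) (e := e) hdeg c (by
    intro l m hm
    obtain ⟨v, hv, rfl⟩ := Finset.mem_image.1 hm
    obtain ⟨hvG, hvl⟩ := Finset.mem_filter.1 hv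
    rw [hcG v hvG]
    exact MvPolynomial.mem_support_iff.1 (hG hvG)) (by
    intro J
    have h5 := h3 (J.image fun l => l.1) (by
      intro l hl
      obtain ⟨l', -, rfl⟩ := Finset.mem_image.1 hl
      exact l'.2)
    rw [Finset.card_image_of_injective _ Subtype.val_injective] at h5
    refine h5.trans (Submodule.finrank_mono (Submodule.span_mono ?_))
    rintro y ⟨v, hvG, ⟨j, hj, hvj⟩, rfl⟩
    obtain ⟨l, hl, rfl⟩ := Finset.mem_image.1 hj
    have h6 := h1 v hvG l.1 l.2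
    have h7 : v l.1 = 1 := by omega
    refine ⟨castv v, ?_, ?_⟩
    · rw [Finset.mem_coe, Finset.mem_biUnion]
      exact ⟨l, hl, Finset.mem_image.2 ⟨v, Finset.mem_filter.2 ⟨hvG, h7⟩, rfl⟩⟩
    · funext i
      simp [qv, castv]) (by
    intro σ w hw hσ L hL
    -- the face of `G`
    let P : {l // l ∈ J1} → Finset (Fin n →₀ ℕ) := fun l =>
      G.filter fun v => v l.1 = 1 ∧ σ ⬝ᵥ castv v = σ ⬝ᵥ w l
    have hFL : FL Gs c w σ L = toF f (L.biUnion P) := by
      unfold FL toF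
      rw [Finset.sum_biUnion]
      · refine Finset.sum_congr rfl fun l _ => ?_
        simp only [Gs]
        rw [Finset.filter_image, Finset.sum_image fun x _ y _ h => castv_injective h,
          Finset.filter_filter]
        refine Finset.sum_congr rfl fun v hv => ?_
        rw [hcG v (Finset.mem_filter.1 hv).1]
      · intro l _ l' _ hne
        rw [Function.onFun, Finset.disjoint_left]
        intro v hv hv'
        obtain ⟨hvG, hvl, -⟩ := Finset.mem_filter.1 hv
        obtain ⟨-, hvl', -⟩ := Finset.mem_filter.1 hv'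
        exact hne (Subtype.ext (h2 v hvG l.1 l.2 l'.1 l'.2 hvl hvl'))
    rw [hFL]
    -- the bound
    obtain ⟨B, hB⟩ : ∃ B : ℕ, ∀ v ∈ G, -(B : ℤ) < σ ⬝ᵥ castv v := by
      refine ⟨(G.sup fun v => (σ ⬝ᵥ castv v).natAbs) + 1, fun v hv => ?_⟩
      have h5 : (σ ⬝ᵥ castv v).natAbs ≤ G.sup fun v => (σ ⬝ᵥ castv v).natAbs :=
        Finset.le_sup (f := fun v => (σ ⬝ᵥ castv v).natAbs) hv
      omega
    let c' : Fin n → ℤ := σ - ∑ l ∈ L, (σ ⬝ᵥ w l + B) • (Pi.single l.1 1 : Fin n → ℤ)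
    have hc' : ∀ m : Fin n → ℤ, c' ⬝ᵥ m = σ ⬝ᵥ m - ∑ l ∈ L, (σ ⬝ᵥ w l + B) * m l.1 := by
      intro m
      simp only [c']
      rw [sub_dotProduct, sum_dotProduct]
      congr 1
      refine Finset.sum_congr rfl fun l _ => ?_
      rw [smul_dotProduct, single_one_dotProduct, smul_eq_mul]
    have hin : ∀ l ∈ L, ∀ v ∈ G, v l.1 = 1 →
        c' ⬝ᵥ castv v = σ ⬝ᵥ castv v - σ ⬝ᵥ w l - B := by
      intro l hl v hv hvl
      rw [hc', Finset.sum_eq_single l]
      · simp only [castv]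
        rw [hvl]
        push_cast
        ring
      · intro l' _ hne
        have h5 := hdeg l l' (castv v) (Finset.mem_image.2
          ⟨v, Finset.mem_filter.2 ⟨hv, hvl⟩, rfl⟩)
        rw [if_neg (Ne.symm hne)] at h5
        simp only [e] at h5
        rw [h5, mul_zero]
      · intro h
        exact absurd hl h
    have hmin : ∀ l ∈ L, ∀ v ∈ G, v l.1 = 1 → σ ⬝ᵥ w l ≤ σ ⬝ᵥ castv v := fun l _ v hv hvl =>
      hσ l (castv v) (Finset.mem_image.2 ⟨v, Finset.mem_filter.2 ⟨hv, hvl⟩, rfl⟩)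
    have hout : ∀ v ∈ G, (∀ l ∈ L, v l.1 ≠ 1) → c' ⬝ᵥ castv v = σ ⬝ᵥ castv v := by
      intro v hv hno
      rw [hc', Finset.sum_eq_zero, sub_zero]
      intro l hl
      have h5 := h1 v hv l.1 l.2
      have h6 := hno l hl
      have h7 : v l.1 = 0 := by omega
      simp only [castv]
      rw [h7]
      simp
    have hI : ∀ v ∈ L.biUnion P, c' ⬝ᵥ castv v = -B := by
      intro v hv
      obtain ⟨l, hl, hv⟩ := Finset.mem_biUnion.1 hv
      obtain ⟨hvG, hvl, hvσ⟩ := Finset.mem_filter.1 hv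
      rw [hin l hl v hvG hvl, hvσ]
      ring
    have hne : (L.biUnion P).Nonempty := by
      obtain ⟨l, hl⟩ := hL
      obtain ⟨v, hv, hvw⟩ := Finset.mem_image.1 (hw l)
      obtain ⟨hvG, hvl⟩ := Finset.mem_filter.1 hv
      exact ⟨v, Finset.mem_biUnion.2 ⟨l, hl, Finset.mem_filter.2 ⟨hvG, hvl, by rw [hvw]⟩⟩⟩
    refine h4 c' (L.biUnion P) ?_ hne ?_ ?_
    · intro v hv
      obtain ⟨l, -, hv⟩ := Finset.mem_biUnion.1 hv
      exact (Finset.mem_filter.1 hv).1
    · intro v hv v' hv'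
      rw [hI v hv]
      by_cases h5 : ∃ l ∈ L, v' l.1 = 1
      · obtain ⟨l, hl, hvl⟩ := h5
        rw [hin l hl v' hv' hvl]
        have := hmin l hl v' hv' hvl
        omega
      · push Not at h5
        rw [hout v' hv' h5]
        exact (hB v' hv').le
    · intro v' hv' heq
      obtain ⟨v, hv⟩ := hne
      have h5 := heq v hv
      rw [hI v hv] at h5
      by_cases h6 : ∃ l ∈ L, v' l.1 = 1
      · obtain ⟨l, hl, hvl⟩ := h6
        rw [hin l hl v' hv' hvl] at h5
        exact Finset.mem_biUnion.2 ⟨l, hl, Finset.mem_filter.2 ⟨hv', hvl, by omega⟩⟩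
      · push Not at h6
        rw [hout v' hv' h6] at h5
        have := hB v' hv'
        omega) (fun l => u l.1)
  intro hsum
  apply hmain
  rw [← hsum, ← Finset.sum_coe_sort J1 fun l => u l * thF (toF f G) l]
  refine Finset.sum_congr rfl fun l _ => ?_
  congr 1
  ext m
  rw [coeff_thF]
  unfold Fl
  rw [AddMonoidAlgebra.coeff_sum, Finsupp.finsetSum_apply]
  simp only [AddMonoidAlgebra.coeff_single, Finsupp.single_apply]
  rw [Finset.sum_ite_eq']
  by_cases hm : m ∈ Gs l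
  · rw [if_pos hm]
    have h5 := hdeg l l m hm
    rw [if_pos rfl] at h5
    simp only [e] at h5
    rw [h5, Int.cast_one, one_mul]
  · rw [if_neg hm]
    by_contra hne
    have hne' : toF f G m ≠ 0 := right_ne_zero_of_mul (Ne.symm hne)
    obtain ⟨v, hv, rfl, -⟩ := toF_support hne'
    have h5 : ((castv v l.1 : ℤ) : ℂ) ≠ 0 := left_ne_zero_of_mul (Ne.symm hne)
    have h6 := h1 v hv l.1 l.2
    have h7 : v l.1 ≠ 0 := by
      intro h7
      apply h5
      simp [castv, h7]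
    exact hm (Finset.mem_image.2 ⟨v, Finset.mem_filter.2 ⟨hv, by omega⟩, rfl⟩)

end MPb07157G
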