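import Mathlib

/-!
# Rado's theorem: independent transversals
-/

noncomputable section

namespace MPb07157G

open Finset Module

variable {ι : Type} [DecidableEq ι] {V : Type} [AddCommGroup V] [Module ℚ V]
  [FiniteDimensional ℚ V] [DecidableEq V]

/-- **Rado's theorem** for a vector space. -/
theorem rado [Fintype ι] : ∀ (N : ℕ) (A : ι → Finset V), ∑ i, (A i).card ≤ N →
    (∀ J : Finset ι, J.card ≤ finrank ℚ (Submodule.span ℚ (↑(J.biUnion A) : Set V))) →
    ∃ a : ι → V, (∀ i, a i ∈ A i) ∧ LinearIndependent ℚ a := by
  intro N
  induction N with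
  | zero =>
    intro A hN hA
    have h0 : ∀ i, A i = ∅ := by
      intro i
      have := (Finset.sum_eq_zero_iff.1 (Nat.le_zero.1 hN)) i (Finset.mem_univ i)
      exact Finset.card_eq_zero.1 this
    have hemp : IsEmpty ι := by
      constructor
      intro i
      have h1 := hA {i}
      rw [Finset.singleton_biUnion, h0 i] at h1
      simp at h1
    exact ⟨fun i => hemp.elim i, fun i => hemp.elim i, linearIndependent_empty_type⟩
  | succ N ih =>
    intro A hN hA
    by_cases hone : ∀ i, (A i).card ≤ 1
    · have hne : ∀ i, (A i).Nonempty := by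
        intro i
        by_contra hcon
        rw [Finset.not_nonempty_iff_eq_empty] at hcon
        have h1 := hA {i}
        rw [Finset.singleton_biUnion, hcon] at h1
        simp at h1
      choose a ha using hne
      have hAa : ∀ i, A i = {a i} := fun i =>
        Finset.eq_singleton_iff_unique_mem.2 ⟨ha i, fun y hy =>
          Finset.card_le_one.1 (hone i) y hy (a i) (ha i)⟩
      refine ⟨a, ha, ?_⟩
      rw [linearIndependent_iff_card_le_finrank_span]
      have h1 := hA Finset.univ
      rw [Finset.card_univ] at h1
      have h2 : (↑(Finset.univ.biUnion A) : Set V) = Set.range a := by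
        ext y
        simp [hAa, eq_comm]
      rw [h2] at h1
      exact h1
    · push Not at hone
      obtain ⟨i₀, hi₀⟩ := hone
      obtain ⟨x, hx, y, hy, hxy⟩ := Finset.one_lt_card.1 hi₀
      -- removing an element
      have key : ∀ z ∈ A i₀, (∀ J : Finset ι, J.card ≤ finrank ℚ (Submodule.span ℚ
          (↑(J.biUnion (Function.update A i₀ ((A i₀).erase z))) : Set V))) →
          ∃ a : ι → V, (∀ i, a i ∈ A i) ∧ LinearIndependent ℚ a := by
        intro z hz hcond
        have hcard : ∑ i, (Function.update A i₀ ((A i₀).erase z) i).card ≤ N := by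
          have h1 : ∑ i, (Function.update A i₀ ((A i₀).erase z) i).card < ∑ i, (A i).card := by
            refine Finset.sum_lt_sum (fun i _ => ?_) ⟨i₀, Finset.mem_univ _, ?_⟩
            · by_cases hi : i = i₀
              · subst hi
                rw [Function.update_self]
                exact Finset.card_le_card (Finset.erase_subset _ _)
              · rw [Function.update_of_ne hi]
            · rw [Function.update_self]
              exact Finset.card_erase_lt_of_mem hz
          omega
        obtain ⟨a, ha, hli⟩ := ih _ hcard hcond
        refine ⟨a, fun i => ?_, hli⟩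
        have h2 := ha i
        by_cases hi : i = i₀
        · subst hi
          rw [Function.update_self] at h2
          exact Finset.mem_of_mem_erase h2
        · rwa [Function.update_of_ne hi] at h2
      by_contra hno
      have hbad : ∀ z ∈ A i₀, ∃ J : Finset ι, i₀ ∈ J ∧ finrank ℚ (Submodule.span ℚ
          (↑(J.biUnion (Function.update A i₀ ((A i₀).erase z))) : Set V)) < J.card := by
        intro z hz
        by_contra hcon
        push Not at hcon
        refine hno (key z hz fun J => ?_)
        by_cases hJ : i₀ ∈ J
        · exact hcon J hJ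
        · have h1 : J.biUnion (Function.update A i₀ ((A i₀).erase z)) = J.biUnion A := by
            refine Finset.biUnion_congr rfl fun j hj => ?_
            rw [Function.update_of_ne]
            rintro rfl
            exact hJ hj
          rw [h1]
          exact hA J
      obtain ⟨J, hiJ, hJ⟩ := hbad x hx
      obtain ⟨J', hiJ', hJ'⟩ := hbad y hy
      set U := Submodule.span ℚ
          (↑(J.biUnion (Function.update A i₀ ((A i₀).erase x))) : Set V) with hU
      set W := Submodule.span ℚ
          (↑(J'.biUnion (Function.update A i₀ ((A i₀).erase y))) : Set V) with hW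
      have hUj : ∀ j ∈ J, j ≠ i₀ → ∀ v ∈ A j, v ∈ U := by
        intro j hj hne v hv
        refine Submodule.subset_span ?_
        rw [Finset.mem_coe, Finset.mem_biUnion]
        exact ⟨j, hj, by rwa [Function.update_of_ne hne]⟩
      have hUi : ∀ v ∈ A i₀, v ≠ x → v ∈ U := by
        intro v hv hne
        refine Submodule.subset_span ?_
        rw [Finset.mem_coe, Finset.mem_biUnion]
        exact ⟨i₀, hiJ, by rw [Function.update_self]; exact Finset.mem_erase.2 ⟨hne, hv⟩⟩
      have hWj : ∀ j ∈ J', j ≠ i₀ → ∀ v ∈ A j, v ∈ W := by
        intro j hj hne v hv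
        refine Submodule.subset_span ?_
        rw [Finset.mem_coe, Finset.mem_biUnion]
        exact ⟨j, hj, by rwa [Function.update_of_ne hne]⟩
      have hWi : ∀ v ∈ A i₀, v ≠ y → v ∈ W := by
        intro v hv hne
        refine Submodule.subset_span ?_
        rw [Finset.mem_coe, Finset.mem_biUnion]
        exact ⟨i₀, hiJ', by rw [Function.update_self]; exact Finset.mem_erase.2 ⟨hne, hv⟩⟩
      have h1 : (J ∪ J').card ≤ finrank ℚ (U ⊔ W : Submodule ℚ V) := by
        refine (hA (J ∪ J')).trans (Submodule.finrank_mono (Submodule.span_le.2 ?_))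
        intro v hv
        rw [Finset.mem_coe, Finset.mem_biUnion] at hv
        obtain ⟨j, hj, hv⟩ := hv
        by_cases hji : j = i₀
        · subst hji
          by_cases hvx : v = x
          · exact Submodule.mem_sup_right (hWi v hv (by rw [hvx]; exact hxy))
          · exact Submodule.mem_sup_left (hUi v hv hvx)
        · rcases Finset.mem_union.1 hj with hj | hj
          · exact Submodule.mem_sup_left (hUj j hj hji v hv)
          · exact Submodule.mem_sup_right (hWj j hj hji v hv)
      have h2 : ((J ∩ J').erase i₀).card ≤ finrank ℚ (U ⊓ W : Submodule ℚ V) := by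
        refine (hA ((J ∩ J').erase i₀)).trans (Submodule.finrank_mono (Submodule.span_le.2 ?_))
        intro v hv
        rw [Finset.mem_coe, Finset.mem_biUnion] at hv
        obtain ⟨j, hj, hv⟩ := hv
        obtain ⟨hji, hj⟩ := Finset.mem_erase.1 hj
        obtain ⟨hj1, hj2⟩ := Finset.mem_inter.1 hj
        exact ⟨hUj j hj1 hji v hv, hWj j hj2 hji v hv⟩
      have h3 := Submodule.finrank_sup_add_finrank_inf_eq U W
      have h4 := Finset.card_union_add_card_inter J J'
      have h5 : ((J ∩ J').erase i₀).card = (J ∩ J').card - 1 :=
        Finset.card_erase_of_mem (Finset.mem_inter.2 ⟨hiJ, hiJ'⟩)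
      have h6 : 0 < (J ∩ J').card := Finset.card_pos.2 ⟨i₀, Finset.mem_inter.2 ⟨hiJ, hiJ'⟩⟩
      omega

end MPb07157G
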