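import Pool.Agent.Lib.MP_b07157_agG.Lead

/-!
# A proper localization at a transversal
-/

noncomputable section

namespace MPb07157G

open Finset Matrix MPb07157T

variable {k : Type} [Field k] {n : ℕ} {ι : Type} [Fintype ι] [DecidableEq ι]

/-- The polynomial with coefficients `c` on the set `G`. -/
def Fl (G : Finset (Fin n → ℤ)) (c : (Fin n → ℤ) → k) : LP k n :=
  ∑ v ∈ G, AddMonoidAlgebra.single v (c v)

/-- Sums of exponents. -/
def SM (Gs : ι → Finset (Fin n → ℤ)) : AddSubmonoid (Fin n → ℤ) :=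
  AddSubmonoid.closure (↑(Finset.univ.biUnion Gs) : Set (Fin n → ℤ))

/-- Sums of differences with the transversal `u`. -/
def Mu (Gs : ι → Finset (Fin n → ℤ)) (u : ι → Fin n → ℤ) : AddSubmonoid (Fin n → ℤ) :=
  AddSubmonoid.closure {w | ∃ l, ∃ v ∈ Gs l, w = v - u l}

variable {Gs : ι → Finset (Fin n → ℤ)} {e : ι → Fin n}

theorem mem_SM_of_mem {l : ι} {v : Fin n → ℤ} (hv : v ∈ Gs l) : v ∈ SM Gs :=
  AddSubmonoid.subset_closure (Finset.mem_coe.2 (Finset.mem_biUnion.2 ⟨l, Finset.mem_univ _, hv⟩))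

/-- The degree of a linear combination of exponents. -/
theorem deg_sum (hdeg : ∀ l l', ∀ v ∈ Gs l, v (e l') = if l = l' then 1 else 0)
    (a : (Fin n → ℤ) → ℕ) (l : ι) :
    (∑ v ∈ Finset.univ.biUnion Gs, a v • v) (e l) = ∑ v ∈ Gs l, (a v : ℤ) := by
  classical
  rw [Finset.sum_apply]
  have h1 : ∀ v ∈ Finset.univ.biUnion Gs, (a v • v) (e l) = if v ∈ Gs l then (a v : ℤ) else 0 := by
    intro v hv
    obtain ⟨l', -, hv'⟩ := Finset.mem_biUnion.1 hv
    rw [Pi.smul_apply, hdeg l' l v hv']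
    by_cases h : l' = l
    · subst h
      rw [if_pos rfl, if_pos hv']
      simp
    · rw [if_neg h, if_neg, smul_zero]
      intro hvl
      have h2 := hdeg l' l v hv'
      rw [hdeg l l v hvl, if_pos rfl, if_neg h] at h2
      exact one_ne_zero h2
  rw [Finset.sum_congr rfl h1, Finset.sum_ite_mem]
  congr 1
  ext v
  simp only [Finset.mem_inter, Finset.mem_biUnion, Finset.mem_univ, true_and]
  exact ⟨fun h => h.2, fun h => ⟨⟨l, h⟩, h⟩⟩

/-- The elements of degree `K` in all directions. -/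
def BK (Gs : ι → Finset (Fin n → ℤ)) (e : ι → Fin n) (K : ℕ) : Set (Fin n → ℤ) :=
  {b | b ∈ SM Gs ∧ ∀ l, b (e l) = K}

theorem BK_rep (hdeg : ∀ l l', ∀ v ∈ Gs l, v (e l') = if l = l' then 1 else 0) {K : ℕ}
    {b : Fin n → ℤ} (hb : b ∈ BK Gs e K) :
    ∃ a : (Fin n → ℤ) → ℕ, (∀ v, v ∉ Finset.univ.biUnion Gs → a v = 0) ∧
      b = ∑ v ∈ Finset.univ.biUnion Gs, a v • v ∧ (∀ l, ∑ v ∈ Gs l, a v = K) ∧
      ∀ v, a v ≤ K := by
  classical
  obtain ⟨hb1, hb2⟩ := hb
  obtain ⟨a, ha, hab⟩ := AddSubmonoid.mem_closure_finset.1 hb1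
  have h0 : ∀ v, v ∉ Finset.univ.biUnion Gs → a v = 0 := by
    intro v hv
    by_contra h
    exact hv (ha (Function.mem_support.2 h))
  have h1 : ∀ l, ∑ v ∈ Gs l, a v = K := by
    intro l
    have h2 := deg_sum hdeg a l
    rw [hab, hb2 l] at h2
    exact_mod_cast h2.symm
  refine ⟨a, h0, hab.symm, h1, fun v => ?_⟩
  by_cases hv : v ∈ Finset.univ.biUnion Gs
  · obtain ⟨l, -, hvl⟩ := Finset.mem_biUnion.1 hv
    rw [← h1 l]
    exact Finset.single_le_sum (f := a) (fun _ _ => Nat.zero_le _) hvl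
  · rw [h0 v hv]
    exact Nat.zero_le _

theorem BK_finite (hdeg : ∀ l l', ∀ v ∈ Gs l, v (e l') = if l = l' then 1 else 0) (K : ℕ) :
    (BK Gs e K).Finite := by
  classical
  let T : Finset (Fin n → ℤ) := Finset.univ.biUnion Gs
  have h1 : (BK Gs e K) ⊆ Set.range
      (fun f : T → Fin (K + 1) => ∑ v : T, ((f v : ℕ)) • (v : Fin n → ℤ)) := by
    intro b hb
    obtain ⟨a, -, hab, -, ha⟩ := BK_rep hdeg hb
    refine ⟨fun v => ⟨a v, Nat.lt_succ_of_le (ha v)⟩, ?_⟩
    simp only
    rw [hab, ← Finset.sum_coe_sort T fun v => a v • v]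
  exact (Set.finite_range _).subset h1

/-- Moving an element of `Mu` into the cone. -/
theorem exists_shift {u : ι → Fin n → ℤ} (hu : ∀ l, u l ∈ Gs l) {s : Fin n → ℤ}
    (hs : s ∈ Mu Gs u) : ∃ N : ℕ, s + N • ∑ l, u l ∈ SM Gs := by
  classical
  unfold Mu at hs
  induction hs using AddSubmonoid.closure_induction with
  | mem w hw =>
    obtain ⟨l, v, hv, rfl⟩ := hw
    refine ⟨1, ?_⟩
    have h1 : v - u l + 1 • ∑ l, u l = v + ∑ l' ∈ Finset.univ.erase l, u l' := by
      rw [one_smul, ← Finset.add_sum_erase _ _ (Finset.mem_univ l)]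
      abel
    rw [h1]
    exact AddSubmonoid.add_mem _ (mem_SM_of_mem hv)
      (AddSubmonoid.sum_mem _ fun l' _ => mem_SM_of_mem (hu l'))
  | zero => exact ⟨0, by rw [zero_smul, add_zero]; exact AddSubmonoid.zero_mem _⟩
  | add x y _ _ hx hy =>
    obtain ⟨N, hN⟩ := hx
    obtain ⟨N', hN'⟩ := hy
    refine ⟨N + N', ?_⟩
    have h1 : x + y + (N + N') • ∑ l, u l = (x + N • ∑ l, u l) + (y + N' • ∑ l, u l) := by
      rw [add_smul]
      abel
    rw [h1]
    exact AddSubmonoid.add_mem _ hN hN'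

theorem sub_mem_of_le {u : ι → Fin n → ℤ} (hu : ∀ l, u l ∈ Gs l) {s : Fin n → ℤ} {N : ℕ}
    (hN : s + N • ∑ l, u l ∈ SM Gs) {N' : ℕ} (h : N < N') (l : ι) :
    s + N' • (∑ l, u l) - u l ∈ SM Gs := by
  classical
  obtain ⟨d, rfl⟩ := Nat.exists_eq_add_of_lt h
  have h1 : s + (N + d + 1) • (∑ l, u l) - u l =
      (s + N • ∑ l, u l) + d • (∑ l, u l) + ∑ l' ∈ Finset.univ.erase l, u l' := by
    rw [add_smul, add_smul, one_smul, ← Finset.add_sum_erase _ (fun l => u l) (Finset.mem_univ l)]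
    abel
  rw [h1]
  refine AddSubmonoid.add_mem _ (AddSubmonoid.add_mem _ hN (AddSubmonoid.nsmul_mem _ ?_ _)) ?_
  · exact AddSubmonoid.sum_mem _ fun l' _ => mem_SM_of_mem (hu l')
  · exact AddSubmonoid.sum_mem _ fun l' _ => mem_SM_of_mem (hu l')

theorem deg_Mu (hdeg : ∀ l l', ∀ v ∈ Gs l, v (e l') = if l = l' then 1 else 0)
    {u : ι → Fin n → ℤ} (hu : ∀ l, u l ∈ Gs l) {s : Fin n → ℤ} (hs : s ∈ Mu Gs u) (l : ι) :
    s (e l) = 0 := by
  unfold Mu at hs
  induction hs using AddSubmonoid.closure_induction with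
  | mem w hw =>
    obtain ⟨l', v, hv, rfl⟩ := hw
    rw [Pi.sub_apply, hdeg l' l v hv, hdeg l' l _ (hu l'), sub_self]
  | zero => rfl
  | add x y _ _ hx hy => rw [Pi.add_apply, hx, hy, add_zero]

/-- Splitting off `k₀` copies of the transversal. -/
theorem split_transversal (hdeg : ∀ l l', ∀ v ∈ Gs l, v (e l') = if l = l' then 1 else 0)
    {u : ι → Fin n → ℤ} (hu : ∀ l, u l ∈ Gs l) (a : (Fin n → ℤ) → ℕ) (k₀ : ℕ)
    (ha : ∀ l, k₀ ≤ a (u l)) :
    ∃ rest ∈ SM Gs, ∑ v ∈ Finset.univ.biUnion Gs, a v • v = rest + k₀ • ∑ l, u l := by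
  classical
  have huinj : Function.Injective u := by
    intro l l' h
    by_contra hne
    have h1 := hdeg l l (u l) (hu l)
    rw [h, hdeg l' l (u l') (hu l'), if_pos rfl, if_neg (Ne.symm hne)] at h1
    exact zero_ne_one h1
  set T := Finset.univ.biUnion Gs with hT
  have hsub : Finset.univ.image u ⊆ T := by
    intro v hv
    obtain ⟨l, -, rfl⟩ := Finset.mem_image.1 hv
    exact Finset.mem_biUnion.2 ⟨l, Finset.mem_univ _, hu l⟩
  refine ⟨∑ v ∈ T, (if v ∈ Finset.univ.image u then a v - k₀ else a v) • v, ?_, ?_⟩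
  · refine AddSubmonoid.sum_mem _ fun v hv => AddSubmonoid.nsmul_mem _ ?_ _
    exact AddSubmonoid.subset_closure (Finset.mem_coe.2 hv)
  · have h1 : k₀ • ∑ l, u l = ∑ v ∈ T, (if v ∈ Finset.univ.image u then k₀ else 0) • v := by
      have h2 : ∀ v ∈ T, (if v ∈ Finset.univ.image u then k₀ else 0) • v =
          if v ∈ Finset.univ.image u then k₀ • v else 0 := by
        intro v _
        split_ifs
        · rfl
        · exact zero_smul _ _
      rw [Finset.sum_congr rfl h2, Finset.sum_ite_mem, Finset.inter_eq_right.2 hsub,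
        Finset.sum_image fun x _ y _ h => huinj h, Finset.smul_sum]
    rw [h1, ← Finset.sum_add_distrib]
    refine Finset.sum_congr rfl fun v hv => ?_
    rw [← add_smul]
    congr 1
    by_cases h : v ∈ Finset.univ.image u
    · rw [if_pos h, if_pos h]
      obtain ⟨l, -, rfl⟩ := Finset.mem_image.1 h
      have := ha l
      omega
    · rw [if_neg h, if_neg h, add_zero]

/-- For some transversal `u` the polynomials `x ^ (- u l) F l` generate a proper ideal of the ring
of `Mu`. -/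
theorem exists_rainbow (hdeg : ∀ l l', ∀ v ∈ Gs l, v (e l') = if l = l' then 1 else 0)
    (c : (Fin n → ℤ) → k) (v₀ : ι → Fin n → ℤ) (hv₀ : ∀ l, v₀ l ∈ Gs l)
    (halg : ∀ P : MvPolynomial ι k, P ≠ 0 → MvPolynomial.aeval
      (fun l => (AddMonoidAlgebra.single (-v₀ l) 1 * Fl (Gs l) c : LP k n)) P ≠ 0) :
    ∃ u : ι → Fin n → ℤ, (∀ l, u l ∈ Gs l) ∧ ¬ ∃ h : ι → LP k n,
      (∀ l, SupIn (Mu Gs u : Set (Fin n → ℤ)) (h l)) ∧
        ∑ l, h l * (AddMonoidAlgebra.single (-u l) 1 * Fl (Gs l) c) = 1 := by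
  classical
  by_contra hcon
  have hall : ∀ u : ι → Fin n → ℤ, (∀ l, u l ∈ Gs l) → ∃ h : ι → LP k n,
      (∀ l, SupIn (Mu Gs u : Set (Fin n → ℤ)) (h l)) ∧
        ∑ l, h l * (AddMonoidAlgebra.single (-u l) 1 * Fl (Gs l) c) = 1 := by
    intro u hu
    by_contra h
    exact hcon ⟨u, hu, h⟩
  choose! h hh hsum using hall
  -- the shifts
  have hN : ∀ u : ι → Fin n → ℤ, (∀ l, u l ∈ Gs l) → ∃ N : ℕ, ∀ l, ∀ s ∈ (h u l).coeff.support,
      ∀ N', N < N' → s + N' • (∑ l, u l) - u l ∈ SM Gs := by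
    intro u hu
    have h1 : ∀ l, ∀ s ∈ (h u l).coeff.support, ∃ N : ℕ, s + N • ∑ l, u l ∈ SM Gs :=
      fun l s hs => exists_shift hu (hh u hu l s hs)
    choose! ν hν using h1
    refine ⟨Finset.univ.sup fun l => (h u l).coeff.support.sup fun s => ν l s,
      fun l s hs N' hN' => ?_⟩
    refine sub_mem_of_le hu (hν l s hs) (lt_of_le_of_lt ?_ hN') l
    exact (Finset.le_sup (f := fun s => ν l s) hs).trans
      (Finset.le_sup (f := fun l => (h u l).coeff.support.sup fun s => ν l s) (Finset.mem_univ l))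
  choose! ν hν using hN
  set T := Finset.univ.biUnion Gs with hT
  set k₀ : ℕ := (Fintype.piFinset Gs).sup ν + 1 with hk₀
  set K : ℕ := k₀ * (T.card + 1) with hK
  obtain ⟨B, hB⟩ := (BK_finite hdeg K).exists_finset_coe
  have hBmem : ∀ b, b ∈ B ↔ b ∈ BK Gs e K := fun b => by rw [← hB, Finset.mem_coe]
  have hBne : B.Nonempty := by
    refine ⟨K • ∑ l, v₀ l, (hBmem _).2 ⟨?_, fun l => ?_⟩⟩
    · exact AddSubmonoid.nsmul_mem _ (AddSubmonoid.sum_mem _ fun l _ => mem_SM_of_mem (hv₀ l)) _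
    · rw [Pi.smul_apply, Finset.sum_apply]
      have h1 : ∀ l', v₀ l' (e l) = if l' = l then 1 else 0 := fun l' => hdeg l' l _ (hv₀ l')
      simp [h1]
  obtain ⟨P, hP0, hP⟩ := exists_poly
    (fun l => (AddMonoidAlgebra.single (-v₀ l) 1 * Fl (Gs l) c : LP k n)) B hBne (by
    intro b hb
    obtain ⟨a, ha0, hab, hadeg, -⟩ := BK_rep hdeg ((hBmem b).1 hb)
    -- pigeonhole
    have hpig : ∀ l, ∃ v ∈ Gs l, k₀ ≤ a v := by
      intro l
      by_contra hno
      push Not at hno
      have h1 : ∑ v ∈ Gs l, a v ≤ ∑ _v ∈ Gs l, k₀ :=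
        Finset.sum_le_sum fun v hv => (hno v hv).le
      rw [hadeg l, Finset.sum_const, smul_eq_mul] at h1
      have h2 : (Gs l).card ≤ T.card :=
        Finset.card_le_card (Finset.subset_biUnion_of_mem Gs (Finset.mem_univ l))
      have h3 : (Gs l).card * k₀ ≤ T.card * k₀ := Nat.mul_le_mul_right _ h2
      have h4 : K = T.card * k₀ + k₀ := by rw [hK]; ring
      have h5 : 0 < k₀ := Nat.succ_pos _
      omega
    choose u hu hau using hpig
    obtain ⟨rest, hrest, hbr⟩ := split_transversal hdeg hu a k₀ hau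
    rw [← hab] at hbr
    have h1 : (AddMonoidAlgebra.single b 1 : LP k n) = ∑ l, ∑ s ∈ (h u l).coeff.support,
        (h u l).coeff s • ((AddMonoidAlgebra.single (-v₀ l) 1 * Fl (Gs l) c) *
          AddMonoidAlgebra.single (b + s - u l + v₀ l) 1) := by
      calc (AddMonoidAlgebra.single b 1 : LP k n) = AddMonoidAlgebra.single b 1 *
            ∑ l, h u l * (AddMonoidAlgebra.single (-u l) 1 * Fl (Gs l) c) := by
            rw [hsum u hu, mul_one]
        _ = ∑ l, h u l * (AddMonoidAlgebra.single (b - u l) 1 * Fl (Gs l) c) := by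
            rw [Finset.mul_sum]
            refine Finset.sum_congr rfl fun l _ => ?_
            have h2 : (AddMonoidAlgebra.single (b - u l) 1 : LP k n) =
                AddMonoidAlgebra.single b 1 * AddMonoidAlgebra.single (-u l) 1 := by
              rw [AddMonoidAlgebra.single_mul_single, one_mul, sub_eq_add_neg]
            rw [h2]
            ring
        _ = _ := by
            refine Finset.sum_congr rfl fun l _ => ?_
            conv_lhs => rw [← AddMonoidAlgebra.sum_coeff_single (h u l)]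
            rw [Finsupp.sum, Finset.sum_mul]
            refine Finset.sum_congr rfl fun s _ => ?_
            have h2 : (AddMonoidAlgebra.single s ((h u l).coeff s) : LP k n) *
                AddMonoidAlgebra.single (b - u l) 1 =
                (h u l).coeff s • (AddMonoidAlgebra.single (-v₀ l) 1 *
                  AddMonoidAlgebra.single (b + s - u l + v₀ l) 1) := by
              rw [AddMonoidAlgebra.single_mul_single, AddMonoidAlgebra.single_mul_single,
                AddMonoidAlgebra.smul_single, smul_eq_mul, mul_one, mul_one, mul_one]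
              congr 1
              abel
            rw [← mul_assoc, h2, smul_mul_assoc]
            congr 1
            ring
    rw [h1]
    refine Submodule.sum_mem _ fun l _ => Submodule.sum_mem _ fun s hs =>
      Submodule.smul_mem _ _ (Submodule.subset_span ⟨l, _, ?_, rfl⟩)
    rw [hBmem]
    have hmem : ν u < k₀ := Nat.lt_succ_of_le
      (Finset.le_sup (f := ν) (Fintype.mem_piFinset.2 hu))
    have h3 := hν u hu l s hs k₀ hmem
    refine ⟨?_, fun l' => ?_⟩
    · have h4 : b + s - u l + v₀ l = rest + (s + k₀ • (∑ l, u l) - u l) + v₀ l := by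
        rw [hbr]
        abel
      rw [h4]
      exact AddSubmonoid.add_mem _ (AddSubmonoid.add_mem _ hrest h3) (mem_SM_of_mem (hv₀ l))
    · have h4 := ((hBmem b).1 hb).2 l'
      have h5 := deg_Mu hdeg hu (hh u hu l s hs) l'
      rw [Pi.add_apply, Pi.sub_apply, Pi.add_apply, h4, h5, hdeg l l' _ (hu l),
        hdeg l l' _ (hv₀ l)]
      ring)
  exact halg P hP0 hP

end MPb07157G
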